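import Pool.Agent.Helper54.T5b.MSplit
import Pool.Agent.Helper27.T5b.Range

/-!
# T5b: the keys of the static levels and of the window; dependence on the keys
-/

set_option autoImplicit false

namespace Pool.Agent.Helper54.T5b

open Finset Pool.Agent.Helper27.T4 Pool.Agent.Helper84.T5b Pool.Agent.Helper37.T5b
open Pool.Agent.Helper5.ET (mask bb)
open Pool.Agent.Helper30.T5b (pz QF QT RT ez NL)
open Pool.Agent.Helper39.T5 Pool.Agent.Helper50.T5 Pool.Agent.Helper57.T5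
open Pool.Agent.Helper22.HW (Side)

variable {m k l : ℕ}

theorem Jn_le_NL (hm : 0 < m) (hl : bb 0 ≤ mL m k l) : Jn m k (sL m k l) l ≤ NL m k l := by
  have h := Pool.Agent.Helper27.T5b.Jn_mul_RT (Pool.Agent.Helper27.T5b.cpl_self hm hl)
  rw [← h]
  exact Nat.le_mul_of_pos_right _ (Pool.Agent.Helper30.T5b.RT_pos _ _ _)

theorem RT_le_NL (hm : 0 < m) (hl : bb 0 ≤ mL m k l) {t : ℕ} (ht : t ≤ sL m k l) :
    RT m k t ≤ NL m k l := by
  have h := Pool.Agent.Helper27.T5b.Jn_mul_RT (Pool.Agent.Helper27.T5b.cpl_self hm hl)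
  rw [← h]
  refine (Nat.le_of_dvd (Pool.Agent.Helper30.T5b.RT_pos _ _ _)
    (Pool.Agent.Helper30.T5b.RT_dvd m k ht)).trans ?_
  exact Nat.le_mul_of_pos_left _ (Pool.Agent.Helper27.T5b.Jn_pos _ _ _ _)

theorem bL_le (hm : 0 < m) (k l : ℕ) : bL m k l ≤ sL m k l := by
  obtain ⟨g1, g2, g3, g4, g5, g6⟩ := Pool.Agent.Helper27.T5b.rL_bounds hm k l
  omega

/-- the coordinates of a joint vector are small -/
theorem XJ_lt (hm : 0 < m) (hl : bb 0 ≤ mL m k l) {x : JF → ℕ} (hx : x ∈ XJ m k l) (i : JF) :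
    x i < Bd m k l := by
  have h2 := mem_XJ.1 hx i
  have h3 : pJ k (sL m k l) i ^ aJ m k (sL m k l) l i ≤ Jn m k (sL m k l) l := by
    refine Nat.le_of_dvd (Pool.Agent.Helper27.T5b.Jn_pos _ _ _ _) ?_
    exact Finset.dvd_prod_of_mem (fun i => pJ k (sL m k l) i ^ aJ m k (sL m k l) l i)
      (Finset.mem_univ i)
  have h4 := Jn_le_NL (k := k) hm hl
  unfold Bd
  rcases h2 with h2 | h2
  · have := h2.2
    omega
  · have h5 := h2.2.2.2
    have h6 : x i ≤ x i ^ 2 := Nat.le_self_pow (by norm_num) _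
    omega

theorem okey_lt (hm : 0 < m) (hl : bb 0 ≤ mL m k l) {x : JF → ℕ} (hx : x ∈ XJ m k l) (t : ℕ)
    (i : JF) : okey m k l t x i < Bd m k l := by
  unfold okey
  split_ifs
  · unfold maskJ
    split_ifs
    · exact XJ_lt hm hl hx i
    · unfold Bd
      omega
  · show 0 < Bd m k l
    unfold Bd
    omega

theorem Ys_lt (hm : 0 < m) (hl : bb 0 ≤ mL m k l) {t : ℕ} (ht : t < rL m k l)
    {y : Fin 3 → ℕ} (hy : y ∈ Ys m k l t) (f : Fin 3) : y f < Bd m k l := by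
  have h1 := hy
  unfold Ys TT at h1
  rw [Fintype.mem_piFinset] at h1
  have h2 := mem_T1.1 (h1 f)
  have hr : rL m k l ≤ sL m k l := Nat.sub_le _ _
  have h3 : pz k (sL m k l - t) f ^ zf m k (sL m k l - t) f ≤ QT m k (sL m k l - t) := by
    refine Nat.le_of_dvd (Pool.Agent.Helper30.T5b.QT_pos _ _ _) ?_
    exact Finset.dvd_prod_of_mem (fun f => QF m k (sL m k l - t) f) (Finset.mem_univ f)
  have h4 : QT m k (sL m k l - t) ≤ RT m k (sL m k l - t) := by
    obtain ⟨u, hu⟩ : ∃ u, sL m k l - t = u + 1 := ⟨sL m k l - t - 1, by omega⟩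
    rw [hu, Pool.Agent.Helper30.T5b.RT_succ]
    exact Nat.le_mul_of_pos_left _ (Pool.Agent.Helper30.T5b.RT_pos _ _ _)
  have h5 := RT_le_NL (k := k) (t := sL m k l - t) hm hl (Nat.sub_le _ _)
  have h6 : y f ≤ y f ^ 2 := Nat.le_self_pow (by norm_num) _
  unfold Bd
  omega

/-! ## membership -/

theorem J_mem {i : JF} {z : JF → ℕ} (hz : ∀ j, z j < Bd m k l) : Key.J l i z ∈ keysOf m k l := by
  unfold keysOf
  rw [mem_union, mem_union]
  left; left
  rw [mem_image]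
  refine ⟨(i, z), ?_, rfl⟩
  rw [mem_product, Fintype.mem_piFinset]
  exact ⟨mem_univ _, fun j => mem_range.2 (hz j)⟩

theorem Bd_pos (m k l : ℕ) : 0 < Bd m k l := by
  unfold Bd
  omega

theorem J0_mem (i : JF) : Key.J l i (fun _ => 0) ∈ keysOf m k l := J_mem (fun _ => Bd_pos m k l)

theorem S_mem {t : ℕ} (ht : t ≤ rL m k l) {f : Fin 3} {o : JF → ℕ} {y : Fin 3 → ℕ}
    (ho : ∀ j, o j < Bd m k l) (hy : ∀ j, y j < Bd m k l) : Key.S l t f o y ∈ keysOf m k l := by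
  unfold keysOf
  rw [mem_union, mem_union]
  left; right
  rw [mem_image]
  refine ⟨((t, f), (o, y)), ?_, rfl⟩
  rw [mem_product, mem_product, mem_product, Fintype.mem_piFinset, Fintype.mem_piFinset]
  exact ⟨⟨mem_range.2 (by simp only; omega), mem_univ _⟩, fun j => mem_range.2 (ho j),
    fun j => mem_range.2 (hy j)⟩

theorem mask_lt {P : Finset (Fin 3)} {y : Fin 3 → ℕ} {B : ℕ} (hB : 0 < B) (hy : ∀ j, y j < B)
    (j : Fin 3) : mask P y j < B := by
  unfold mask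
  split_ifs
  · exact hy j
  · exact hB

theorem maskJ_lt {P : Finset JF} {y : JF → ℕ} {B : ℕ} (hB : 0 < B) (hy : ∀ j, y j < B)
    (j : JF) : maskJ P y j < B := by
  unfold maskJ
  split_ifs
  · exact hy j
  · exact hB

/-- the key of a table of a static level -/
theorem Skey_mem (hm : 0 < m) (hl : bb 0 ≤ mL m k l) {t : ℕ} (ht : t < rL m k l) {o : JF → ℕ}
    (ho : ∀ j, o j < Bd m k l) {y : Fin 3 → ℕ} (hy : y ∈ Ys m k l t) (f : Fin 3) :
    (Ss m k l t o).key f y ∈ keysOf m k l :=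
  S_mem ht.le ho (mask_lt (Bd_pos m k l) (Ys_lt hm hl ht hy))

theorem V_mem {L b : ℕ} (hL : L < Bd m k l) (hb : b < Bd m k l) : Key.V l L b ∈ keysOf m k l := by
  unfold keysOf
  rw [mem_union]
  right
  rw [mem_image]
  exact ⟨(L, b), mem_product.2 ⟨mem_range.2 hL, mem_range.2 hb⟩, rfl⟩

theorem Vkey_mem (hm : 0 < m) (hl : bb 0 ≤ mL m k l) {v : ℕ} (hv : v < 16 * RT m k (bL m k l)) :
    Key.V l (lev v) (v / 2 ^ lev v) ∈ keysOf m k l := by
  have h1 := RT_le_NL (k := k) (t := bL m k l) hm hl (bL_le hm k l)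
  have h2 : v / 2 ^ lev v ≤ v := Nat.div_le_self _ _
  have h3 : lev v ≤ v := by
    unfold lev
    exact Nat.log_le_self 4 v
  refine V_mem ?_ ?_
  · unfold Bd
    omega
  · unfold Bd
    omega

/-! ## dependence -/

theorem cs_congr (hm : 0 < m) (hl : bb 0 ≤ mL m k l) {w w' : Key → ℕ} {P : Key → Prop}
    (h : ∀ q ∈ keysOf m k l, P q → w q = w' q)
    (hP : ∀ t f o y, P (Key.S l t f o y)) {t : ℕ} (ht : t < rL m k l) {o : JF → ℕ}
    (ho : ∀ j, o j < Bd m k l) {y : Fin 3 → ℕ} (hy : y ∈ Ys m k l t) :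
    cs m k l t w o y = cs m k l t w' o y := by
  have h1 : (Ss m k l t o).rho w = (Ss m k l t o).rho w ∧ ∀ f,
      (Ss m k l t o).rho w f y = (Ss m k l t o).rho w' f y := by
    refine ⟨rfl, fun f => ?_⟩
    unfold Side.rho
    rw [h _ (Skey_mem hm hl ht ho hy f) (hP _ _ _ _)]
  unfold cs Side.cd
  unfold Pool.Agent.Helper22.HW.lc
  congr 1
  funext f
  rw [h1.2 f]

theorem Vw_congr (hm : 0 < m) (hl : bb 0 ≤ mL m k l) {w w' : Key → ℕ} {P : Key → Prop}
    (h : ∀ q ∈ keysOf m k l, P q → w q = w' q) (hP : ∀ L b, P (Key.V l L b)) :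
    Vw m k l w = Vw m k l w' := by
  unfold Vw VW
  refine Finset.filter_congr (fun v hv => ?_)
  rw [mem_Ico] at hv
  simp only
  rw [h _ (Vkey_mem hm hl hv.2) (hP _ _)]

end Pool.Agent.Helper54.T5b
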