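import Pool.Agent.Helper84.T5b.Defs
import Pool.Agent.Helper3.T5.Defs
import Pool.Agent.Helper27.T4.Phase

/-!
# T5b: the main level of a pair of states across a split, as an instance of `MP`

`MSp m k l' l o o'`: the states `l' < l`, the triple `sL m k l` has been split off between them;
`o`, `o'` are the outer keys.  The families are the joint families of the upper state.
-/

set_option autoImplicit false

namespace Pool.Agent.Helper54.T5b

open Finset Pool.Agent.Helper27.T4 Pool.Agent.Helper84.T5b Pool.Agent.Helper37.T5b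
  Pool.Agent.Helper30.T5b Pool.Agent.Helper27.T5b
open Pool.Agent.Helper5.ET hiding Key keysOf Mk
open Pool.Agent.Helper3.T5 Pool.Agent.Helper39.T5

/-- the joint vector of the lower state without the newborn families -/
def lowJ (x : JF → ℕ) : JF → ℕ :=
  Sum.elim (fun f => x (Sum.inl f)) (Fin.cases (x (Sum.inr 0)) (fun _ => 1))

theorem lowJ_inl (x : JF → ℕ) (f : Fin 3) : lowJ x (Sum.inl f) = x (Sum.inl f) := rfl

theorem lowJ_zero (x : JF → ℕ) : lowJ x (Sum.inr 0) = x (Sum.inr 0) := rfl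

theorem lowJ_succ (x : JF → ℕ) (f : Fin 3) : lowJ x (Sum.inr f.succ) = 1 := rfl

/-- key of the joint level of the lower state; the newborn families are not used -/
noncomputable def keyL (m k l' : ℕ) : JF → (JF → ℕ) → Key
  | Sum.inl f, x => Key.J l' (Sum.inl f) (maskJ (preJ m k l' (Sum.inl f)) x)
  | Sum.inr _, _ => Key.J l' (Sum.inr 0) 0

/-- the main level of a pair across a split -/
noncomputable def MSp (m k l' l : ℕ) (o o' : JF → ℕ) : MP JF Key where
  p := pJ k (sL m k l)
  c := aJ m k (sL m k l) l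
  c' := aJ m k (sL m k l) l'
  e := aJ m k (sL m k l) (ef m k l 0)
  e' := aJ m k (sL m k l) (ef m k l' 0)
  X := (XJ m k l).filter (fun x => okey m k l 0 x = o)
  X' := ((XJ m k l').filter (fun x => okey m k l' 0 x = o')).image lowJ
  pre := preJ m k l
  pre' := preJ m k l'
  key := fun i x => Key.J l i (maskJ (preJ m k l i) x)
  key' := keyL m k l'
  rk := Sum.elim (rk (ordK (mL m k l))) (fun _ => 0)
  P := {Sum.inl (fam (era (mL m k l)))}
  R := Sum.inl (fam (era (mL m k l) + 2))

/-- the digits near a split: `l' < l` with joint fronts `e' = ef m k l' 0 ≤ e = ef m k l 0` -/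
structure SplitDig (m k l' l : ℕ) : Prop where
  ss : sL m k l = sL m k l' + 1
  ll : l' < l
  le' : l' ≤ ef m k l' 0
  ee : ef m k l' 0 ≤ ef m k l 0
  le : l ≤ ef m k l 0
  era_eq : era (mL m k l') = era (mL m k l)
  ord' : ordK (mL m k l') = era (mL m k l)
  ord : ordK (mL m k l) = era (mL m k l)
  iso' : ¬ iso (mL m k l')
  iso : ¬ iso (mL m k l)
  nb0 : ∀ x, l' ≤ x → x ≤ ef m k l 0 → ∀ f : Fin 3, aJ m k (sL m k l) x (Sum.inr f.succ) = 0
  full : ∀ x, l' ≤ x → x ≤ ef m k l 0 → ∀ f : Fin 3,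
    aJ m k (sL m k l') x (Sum.inr f.succ) = zf m k (sL m k l) f
  buf : ∀ x, l' ≤ x → x ≤ ef m k l 0 → aJ m k (sL m k l) x (Sum.inr 0) =
    aJ m k (sL m k l) l' (Sum.inr 0)
  stat : ∀ x, l' ≤ x → x ≤ ef m k l 0 → ∀ f : Fin 3, f ≠ fam (era (mL m k l)) →
    aJ m k (sL m k l) x (Sum.inl f) = aJ m k (sL m k l) l' (Sum.inl f)
  grow : aJ m k (sL m k l) l (Sum.inl (fam (era (mL m k l)))) ≤
    2 * aJ m k (sL m k l) l' (Sum.inl (fam (era (mL m k l)))) + 1

/-! ## elementary facts -/

theorem ct_mono {m k : ℕ} (f : Fin 3 ⊕ Option (ℕ × Fin 3)) {x y : ℕ} (h : x ≤ y) :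
    ct (ins m k) own (ex m k) f x ≤ ct (ins m k) own (ex m k) f y := by
  unfold ct
  exact Finset.card_le_card (Finset.filter_subset_filter _ (Finset.range_mono h))

theorem aJ_mono {m k s : ℕ} {x y : ℕ} (h : x ≤ y) (i : JF) : aJ m k s x i ≤ aJ m k s y i := by
  rcases i with f | i
  · exact ct_mono _ h
  · refine Fin.cases ?_ (fun f => ?_) i
    · exact ct_mono _ h
    · exact ct_mono _ h

theorem pJ_ne_two (k s : ℕ) (i : JF) : pJ k s i ≠ 2 := by
  rcases i with f | i
  · exact pr_ne_two f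
  · refine Fin.cases ?_ (fun f => ?_) i
    · show (1000039 : ℕ) ≠ 2
      norm_num
    · have h := Pool.Agent.Helper30.T5.lt_sp (3 * ((s + 1) % (k + 3)) + f)
      show pz k (s + 1) f ≠ 2
      unfold pz
      omega

theorem mem_XJ {m k l : ℕ} {x : JF → ℕ} : x ∈ XJ m k l ↔
    ∀ i, (aJ m k (sL m k l) l i = 0 ∧ x i = 1) ∨ (aJ m k (sL m k l) l i ≠ 0 ∧
      (x i).Prime ∧ (x i).Coprime (pJ k (sL m k l) i) ∧
        x i ^ 2 < pJ k (sL m k l) i ^ aJ m k (sL m k l) l i) := by
  unfold XJ
  rw [Fintype.mem_piFinset]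
  refine forall_congr' (fun i => ?_)
  split_ifs with h
  · simp [h]
  · rw [mem_T1]
    simp [h]

theorem maskJ_inj {P : Finset JF} {x y : JF → ℕ} (h : maskJ P x = maskJ P y) :
    ∀ j ∈ P, x j = y j := by
  intro j hj
  have := congrFun h j
  simpa [maskJ, hj] using this

theorem maskJ_congr {P : Finset JF} {x y : JF → ℕ} (h : ∀ j ∈ P, x j = y j) :
    maskJ P x = maskJ P y := by
  funext j
  unfold maskJ
  split_ifs with hj
  · exact h j hj
  · rfl

theorem mem_preJ_inl {m k l : ℕ} {f : Fin 3} {j : JF} (h : j ∈ preJ m k l (Sum.inl f)) :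
    ∃ g, g ∈ pre (mL m k l) f ∧ j = Sum.inl g := by
  unfold preJ at h
  rw [mem_image] at h
  obtain ⟨g, h1, h2⟩ := h
  exact ⟨g, h1, h2.symm⟩

theorem fam_two_ne (j : ℕ) : fam (j + 2) ≠ fam j := fun h => fam_ne_succ2 j h.symm

theorem pJ_inl (k s : ℕ) (f : Fin 3) : pJ k s (Sum.inl f) = pr f := rfl

theorem pJ_zero (k s : ℕ) : pJ k s (Sum.inr 0) = 1000039 := rfl

theorem aJ_inl (m k s x : ℕ) (f : Fin 3) : aJ m k s x (Sum.inl f) =
    ct (ins m k) own (ex m k) (Sum.inl f) x := rfl

theorem aJ_zero (m k s x : ℕ) : aJ m k s x (Sum.inr 0) =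
    ct (ins m k) own (ex m k) (Sum.inr none) x := rfl

variable {m k l' l : ℕ} {o o' : JF → ℕ}

theorem MSp_R_le : (MSp m k l' l o o').R = Sum.inl (fam (era (mL m k l) + 2)) := rfl

theorem MSp_size (h : SplitDig m k l' l) (x : JF → ℕ) :
    Mk m k ((MSp m k l' l o o').key (MSp m k l' l o o').R x) = (MSp m k l' l o o').q := by
  unfold MP.q MSp
  simp only [Mk]

theorem MSp_size' (h : SplitDig m k l' l) (x : JF → ℕ) :
    Mk m k ((MSp m k l' l o o').key' (MSp m k l' l o o').R x) = (MSp m k l' l o o').q := by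
  have hRr : ∀ x, l' ≤ x → x ≤ ef m k l 0 →
      aJ m k (sL m k l) x (Sum.inl (fam (era (mL m k l) + 2))) =
        aJ m k (sL m k l) l' (Sum.inl (fam (era (mL m k l) + 2))) :=
    fun x h1 h2 => h.stat x h1 h2 _ (fam_two_ne _)
  have h1 := hRr _ h.le' h.ee
  have h2 := hRr _ (h.ll.le.trans h.le) le_rfl
  have h3 : (MSp m k l' l o o').q = pr (fam (era (mL m k l) + 2)) ^
      ct (ins m k) own (ex m k) (Sum.inl (fam (era (mL m k l) + 2))) (ef m k l 0) := by
    unfold MP.q MSp
    simp only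
    rw [pJ_inl, aJ_inl]
  have h4 : Mk m k ((MSp m k l' l o o').key' (MSp m k l' l o o').R x) =
      pr (fam (era (mL m k l) + 2)) ^
      ct (ins m k) own (ex m k) (Sum.inl (fam (era (mL m k l) + 2))) (ef m k l' 0) := by
    unfold MSp
    simp only [keyL, Mk]
    rw [pJ_inl, aJ_inl]
  rw [h3, h4]
  rw [aJ_inl, aJ_inl] at h1 h2
  rw [h1, h2]

/-- **the requirements** -/
theorem MSp_ok (h : SplitDig m k l' l) : (MSp m k l' l o o').Ok (Mk m k) := by
  have hRr : ∀ x, l' ≤ x → x ≤ ef m k l 0 →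
      aJ m k (sL m k l) x (Sum.inl (fam (era (mL m k l) + 2))) =
        aJ m k (sL m k l) l' (Sum.inl (fam (era (mL m k l) + 2))) :=
    fun x h1 h2 => h.stat x h1 h2 _ (fam_two_ne _)
  have hpre : fam (era (mL m k l)) ∈ pre (mL m k l) (fam (era (mL m k l) + 2)) := by
    rw [mem_pre, h.ord, rk_self, rk_next2]
    exact ⟨fun h1 => absurd h1.2 (by norm_num), by norm_num⟩
  have hpre' : fam (era (mL m k l)) ∈ pre (mL m k l') (fam (era (mL m k l) + 2)) := by
    rw [mem_pre, h.ord', rk_self, rk_next2]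
    exact ⟨fun h1 => absurd h1.2 (by norm_num), by norm_num⟩
  refine
    { prime := pJ_prime k _
      odd := pJ_ne_two k _
      inj := pJ_inj k _
      adm := fun x hx i => ?_
      adm' := fun x hx i => ?_
      cc := fun i => aJ_mono h.ll.le i
      ce := fun i => aJ_mono h.le i
      ce' := fun i => aJ_mono h.le' i
      ee := fun i => aJ_mono h.ee i
      rank := fun i j hj => ?_
      dep := fun i x y hxy => congrArg (Key.J l i) (maskJ_congr hxy)
      dep' := fun i x y hxy => ?_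
      sep := fun x _ y _ hxy => ?_
      sep' := fun x _ y _ hxy => ?_
      new := fun i x y hi => ⟨fun hc => hi ?_, fun hc => hi ?_⟩
      mix := fun i x j y hc => ?_
      size := fun x _ => MSp_size h x
      size' := fun x _ => MSp_size' h x
      PR := ?_
      PR' := ?_
      RP := ?_
      statR := ?_ }
  · have hx1 : x ∈ XJ m k l := (mem_filter.1 hx).1
    rcases mem_XJ.1 hx1 i with ⟨_, h2⟩ | ⟨_, h2, h3, h4⟩
    · rw [h2]
      exact ⟨Nat.coprime_one_left _, Or.inl rfl⟩
    · exact ⟨h3, Or.inr ⟨h2, h4⟩⟩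
  · change x ∈ ((XJ m k l').filter (fun x => okey m k l' 0 x = o')).image lowJ at hx
    rw [mem_image] at hx
    obtain ⟨z, hz, rfl⟩ := hx
    have hz1 := mem_XJ.1 (mem_filter.1 hz).1
    change (lowJ z i).Coprime (pJ k (sL m k l) i) ∧ (lowJ z i = 1 ∨ ((lowJ z i).Prime ∧
      lowJ z i ^ 2 < pJ k (sL m k l) i ^ aJ m k (sL m k l) l' i))
    rcases i with f | i
    · have hf := hz1 (Sum.inl f)
      rw [pJ_inl, aJ_inl] at hf
      rw [lowJ_inl, pJ_inl, aJ_inl]
      rcases hf with ⟨_, h2⟩ | ⟨_, h2, h3, h4⟩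
      · rw [h2]
        exact ⟨Nat.coprime_one_left _, Or.inl rfl⟩
      · exact ⟨h3, Or.inr ⟨h2, h4⟩⟩
    · revert i
      refine Fin.cases ?_ (fun f => ?_)
      · have hf := hz1 (Sum.inr 0)
        rw [pJ_zero, aJ_zero] at hf
        rw [lowJ_zero, pJ_zero, aJ_zero]
        rcases hf with ⟨_, h2⟩ | ⟨_, h2, h3, h4⟩
        · rw [h2]
          exact ⟨Nat.coprime_one_left _, Or.inl rfl⟩
        · exact ⟨h3, Or.inr ⟨h2, h4⟩⟩
      · rw [lowJ_succ]
        exact ⟨Nat.coprime_one_left _, Or.inl rfl⟩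
  · change j ∈ preJ m k l i ∪ preJ m k l' i at hj
    rw [mem_union] at hj
    rcases i with f | i
    · rcases hj with hj | hj
      · obtain ⟨g, h1, rfl⟩ := mem_preJ_inl hj
        exact ((mem_pre _ _ _).1 h1).2
      · obtain ⟨g, h1, rfl⟩ := mem_preJ_inl hj
        have h2 := ((mem_pre _ _ _).1 h1).2
        rw [h.ord', ← h.ord] at h2
        exact h2
    · exfalso
      rcases hj with hj | hj
      · exact absurd hj (by unfold preJ; simp)
      · exact absurd hj (by unfold preJ; simp)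
  · rcases i with f | i
    · exact congrArg (Key.J l' (Sum.inl f)) (maskJ_congr hxy)
    · rfl
  · have h1 : maskJ (preJ m k l (Sum.inl (fam (era (mL m k l) + 2)))) x =
        maskJ (preJ m k l (Sum.inl (fam (era (mL m k l) + 2)))) y := (Key.J.inj hxy).2.2
    exact maskJ_inj h1
  · have h1 : maskJ (preJ m k l' (Sum.inl (fam (era (mL m k l) + 2)))) x =
        maskJ (preJ m k l' (Sum.inl (fam (era (mL m k l) + 2)))) y := (Key.J.inj hxy).2.2
    exact maskJ_inj h1
  · exact (Key.J.inj hc).2.1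
  · rcases i with f | i
    · exact (Key.J.inj hc).2.1
    · exact absurd (Key.J.inj hc).2.1 (by simp)
  · rcases j with f | j
    · exact absurd (Key.J.inj hc).1 (by have := h.ll; omega)
    · exact absurd (Key.J.inj hc).1 (by have := h.ll; omega)
  · intro j hj
    have hj' : j = Sum.inl (fam (era (mL m k l))) := Finset.mem_singleton.1 hj
    rw [hj']
    exact mem_image_of_mem _ hpre
  · intro j hj
    have hj' : j = Sum.inl (fam (era (mL m k l))) := Finset.mem_singleton.1 hj
    rw [hj']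
    exact mem_image_of_mem _ hpre'
  · intro hc
    exact fam_two_ne _ (Sum.inl.inj (Finset.mem_singleton.1 hc))
  · exact (hRr _ (h.ll.le.trans h.le) le_rfl).symm

/-- the extra requirements for the degrees -/
theorem MSp_st (h : SplitDig m k l' l) : (MSp m k l' l o o').St := by
  refine ⟨fun i hi => ?_, fun i hi => ?_⟩
  · change aJ m k (sL m k l) l i = aJ m k (sL m k l) l' i
    rcases i with f | i
    · refine h.stat l h.ll.le h.le f (fun hc => hi ?_)
      rw [hc]
      exact Finset.mem_singleton_self _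
    · revert hi
      revert i
      refine Fin.cases (fun _ => ?_) (fun f _ => ?_)
      · exact h.buf l h.ll.le h.le
      · rw [h.nb0 l h.ll.le h.le f, h.nb0 l' le_rfl (h.ll.le.trans h.le) f]
  · have hi' : i = Sum.inl (fam (era (mL m k l))) := Finset.mem_singleton.1 hi
    rw [hi']
    exact h.grow

end Pool.Agent.Helper54.T5b
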