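import Pool.Agent.Helper54.T5b.S3Pr

/-!
# T5b: `Blk CaseSplitMid RpC`
-/

set_option autoImplicit false

namespace Pool.Agent.Helper54.T5b

open Finset Pool.Agent.Helper27.T4 Pool.Agent.Helper84.T5b Pool.Agent.Helper37.T5b
open Pool.Agent.Helper5.ET (mask bb era)
open Pool.Agent.Helper30.T5b (pz QF QT RT ez NL BP)
open Pool.Agent.Helper39.T5 Pool.Agent.Helper50.T5 Pool.Agent.Helper57.T5
open Pool.Agent.Helper3.T5 (MP)
open Pool.Agent.Helper48.T5b (SplitP gS cT)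
open Pool.Agent.Helper45.T5b (IsWinB OK)
open Pool.Agent.Helper22.SL

variable {m k : ℕ}

/-- a near pair across SPLIT -/
theorem splitEv_of {l' l : ℕ} (hm : 0 < m) (hl : l' ≤ l) (h0 : bb 0 ≤ mL m k l')
    (hk : kt m k ≤ era (mL m k l')) (hN : Near m k l' l) (hS : Split m k l' l) :
    SplitEv m k (mL m k l') (mL m k l) := by
  have h1 : sv m k (mL m k l') + 1 = sv m k (mL m k l) := hS.1
  rcases event_of_near hm hl h0 hk hN with h | h | h | h | h | h | h
  · rw [h.sv_eq] at h1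
    omega
  · rw [h.sv', h.sv] at h1
    omega
  · rw [h.sv', h.sv] at h1
    omega
  · rw [h.sv', h.sv] at h1
    omega
  · rw [h.sv', h.sv] at h1
    omega
  · exact h
  · rw [h.sv', h.sv] at h1
    omega

/-- the lower window is short -/
theorem Un_short {s l' l : ℕ} (hm : 0 < m) (h : SplitP m k s l' l)
    (hC : ∀ x, l' ≤ x → x ≤ ez m (sL m k l) l →
      NL m k x = RT m k (sL m k l) * Jn m k (sL m k l) x)
    (hD : 8 * SS m (sL m k l') ≤ l - l') :
    Un m k l' * (16 * RT m k (bL m k l')) ≤ Un m k l := by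
  have h1 := Pool.Agent.Helper30.T5b.NL_lower m k h.le
  have hez : l ≤ ez m (sL m k l) l := (Pool.Agent.Helper30.T5b.lt_ez hm _ l).le
  rw [hC l' le_rfl (h.le.trans hez), hC l h.le hez, mul_assoc] at h1
  have h2 := Nat.le_of_mul_le_mul_left h1 (Pool.Agent.Helper30.T5b.RT_pos m k (sL m k l))
  rw [h.s1] at h2
  have h3 : 16 * RT m k (bL m k l') ≤ (10 ^ 6) ^ (l - l') := by
    have e1 := Pool.Agent.Helper30.T5b.RT_le hm k (bL m k l')
    have e2 : SS m (bL m k l') ≤ SS m (sL m k l') := SS_mono m (by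
      rw [h.b', h.s']
      omega)
    have e3 := SS_pos m (sL m k l')
    calc 16 * RT m k (bL m k l') ≤ 10 ^ 6 * (10 ^ 6) ^ SS m (bL m k l') :=
          Nat.mul_le_mul (by norm_num) e1
      _ = (10 ^ 6) ^ (SS m (bL m k l') + 1) := (pow_succ' _ _).symm
      _ ≤ _ := Nat.pow_le_pow_right (by norm_num) (by omega)
  rw [h.Un_lower hm, h.Un_upper, h.rL_succ]
  calc Jn m k (s + 1) l' * LL (QQ m k (s + 1)) (rL m k l' + 1) * (16 * RT m k (bL m k l'))
      ≤ Jn m k (s + 1) l' * LL (QQ m k (s + 1)) (rL m k l' + 1) * (10 ^ 6) ^ (l - l') :=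
        Nat.mul_le_mul_left _ h3
    _ = (Jn m k (s + 1) l' * (10 ^ 6) ^ (l - l')) * LL (QQ m k (s + 1)) (rL m k l' + 1) := by ring
    _ ≤ _ := Nat.mul_le_mul_right _ h2

theorem aJ_le (m k s x : ℕ) (f : Fin 3) : aJ m k s x (Sum.inl f) ≤ x := by
  rw [aJ_inl]
  unfold Pool.Agent.Helper27.T5b.ct
  exact (card_filter_le _ _).trans (card_range x).le

/-- size of the fresh modulus -/
theorem q_le {l' l : ℕ} (hm : 0 < m) (hS : SS m (sL m k l) ≤ l) :
    (MSp m k l' l 0 0).q ≤ BP k ^ (2 * l) := by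
  have h1 : (MSp m k l' l 0 0).q = Pool.Agent.Helper5.ET.pr
      (fam (era (mL m k l) + 2)) ^ aJ m k (sL m k l) (ef m k l 0)
        (Sum.inl (fam (era (mL m k l) + 2))) := rfl
  rw [h1]
  have h2 := aJ_le m k (sL m k l) (ef m k l 0)
    (fam (era (mL m k l) + 2))
  have h3 : ef m k l 0 ≤ l + SS m (sL m k l) := by
    have e1 := Pool.Agent.Helper48.T5b.ef_le (k := k) hm l 0
    have e2 := Pool.Agent.Helper48.T5b.ez_le_SS hm (sL m k l) l
    omega
  calc Pool.Agent.Helper5.ET.pr (fam (era (mL m k l) + 2)) ^ _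
      ≤ BP k ^ aJ m k (sL m k l) (ef m k l 0)
        (Sum.inl (fam (era (mL m k l) + 2))) :=
        Nat.pow_le_pow_left (Pool.Agent.Helper30.T5b.pr_le_BP k _) _
    _ ≤ _ := Nat.pow_le_pow_right (Pool.Agent.Helper30.T5b.BP_pos k) (by omega)

/-- the constant of the exponents -/
noncomputable def Lk (m k : ℕ) : ℝ := Real.log ((34 * RT m k k * BP k : ℕ) : ℝ) + 4 * Real.log (BP k)

theorem bnd_le {l' l mm : ℕ} (hm : 0 < m) (hl : 1 ≤ l) (hS : SS m (sL m k l) ≤ l) :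
    bnd m k l' l mm ≤ Real.exp (Lk m k * l) *
      Real.exp (-((SS m (sL m k l') : ℝ) / 2 * (mm + 1))) := by
  have hB := Pool.Agent.Helper30.T5b.BP_pos k
  have hR := Pool.Agent.Helper30.T5b.RT_pos m k k
  have hBr : (0 : ℝ) < BP k := by exact_mod_cast hB
  have h1 : 34 * NL m k l ≤ (34 * RT m k k * BP k) ^ l := by
    calc 34 * NL m k l ≤ 34 * (RT m k k * BP k ^ l) :=
          Nat.mul_le_mul_left _ (Pool.Agent.Helper30.T5b.NL_le_pow m k l)
      _ = (34 * RT m k k) * BP k ^ l := by ring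
      _ ≤ (34 * RT m k k) ^ l * BP k ^ l := by
          refine Nat.mul_le_mul_right _ ?_
          exact Nat.le_self_pow (by omega) _
      _ = _ := (mul_pow _ _ _).symm
  have hG : (0 : ℝ) < ((34 * RT m k k * BP k : ℕ) : ℝ) := by
    exact_mod_cast (show 0 < 34 * RT m k k * BP k by positivity)
  have h2 : ((34 * NL m k l : ℕ) : ℝ) ≤
      Real.exp (Real.log ((34 * RT m k k * BP k : ℕ) : ℝ) * l) := by
    rw [Real.exp_mul, Real.exp_log hG, Real.rpow_natCast]
    exact_mod_cast h1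
  have h3 : ((MSp m k l' l 0 0).q : ℝ) ^ 2 ≤ Real.exp (4 * Real.log (BP k) * l) := by
    have e1 : ((MSp m k l' l 0 0).q : ℝ) ≤ (BP k : ℝ) ^ (2 * l) := by
      exact_mod_cast q_le (k := k) (l' := l') (l := l) hm hS
    have e2 : Real.exp (4 * Real.log (BP k) * l) = (BP k : ℝ) ^ (4 * l) := by
      have e3 : 4 * Real.log (BP k) * l = Real.log (BP k) * ((4 * l : ℕ) : ℝ) := by
        push_cast
        ring
      rw [e3, Real.exp_mul, Real.exp_log hBr, Real.rpow_natCast]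
    rw [e2]
    calc ((MSp m k l' l 0 0).q : ℝ) ^ 2 ≤ ((BP k : ℝ) ^ (2 * l)) ^ 2 := by gcongr
      _ = _ := by rw [← pow_mul]; congr 1; ring
  have h4 : 2 * Real.exp (-(SS m (sL m k l') : ℝ)) ≤
      Real.exp (-((SS m (sL m k l') : ℝ) / 2)) := by
    have e1 : (2 : ℝ) ≤ SS m (sL m k l') := by
      have := SS_ge hm (sL m k l')
      have h5 : 2 ≤ 2 ^ 250 := by norm_num
      exact_mod_cast h5.trans this
    have e2 : (2 : ℝ) ≤ Real.exp ((SS m (sL m k l') : ℝ) / 2) := by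
      have := Real.add_one_le_exp ((SS m (sL m k l') : ℝ) / 2)
      linarith
    have e3 : Real.exp (-((SS m (sL m k l') : ℝ) / 2)) =
        Real.exp ((SS m (sL m k l') : ℝ) / 2) * Real.exp (-(SS m (sL m k l') : ℝ)) := by
      rw [← Real.exp_add]
      congr 1
      ring
    rw [e3]
    exact mul_le_mul_of_nonneg_right e2 (Real.exp_pos _).le
  have h5 : (2 * Real.exp (-(SS m (sL m k l') : ℝ))) ^ (mm + 1) ≤
      Real.exp (-((SS m (sL m k l') : ℝ) / 2 * (mm + 1))) := by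
    have e1 : Real.exp (-((SS m (sL m k l') : ℝ) / 2 * (mm + 1))) =
        Real.exp (-((SS m (sL m k l') : ℝ) / 2)) ^ (mm + 1) := by
      rw [← Real.exp_nat_mul]
      congr 1
      push_cast
      ring
    rw [e1]
    exact pow_le_pow_left₀ (by positivity) h4 _
  unfold bnd Lk
  calc ((34 * NL m k l : ℕ) : ℝ) * (((MSp m k l' l 0 0).q : ℝ) ^ 2 *
        (2 * Real.exp (-(SS m (sL m k l') : ℝ))) ^ (mm + 1))
      ≤ Real.exp (Real.log ((34 * RT m k k * BP k : ℕ) : ℝ) * l) *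
        (Real.exp (4 * Real.log (BP k) * l) *
          Real.exp (-((SS m (sL m k l') : ℝ) / 2 * (mm + 1)))) := by
        gcongr
    _ = _ := by
        rw [← Real.exp_add, ← Real.exp_add, ← Real.exp_add]
        congr 1
        ring

theorem Lk_nonneg (m k : ℕ) : 0 ≤ Lk m k := by
  have hB := Pool.Agent.Helper30.T5b.BP_pos k
  have hR := Pool.Agent.Helper30.T5b.RT_pos m k k
  have h1 : (1 : ℝ) ≤ ((34 * RT m k k * BP k : ℕ) : ℝ) := by
    exact_mod_cast (show 1 ≤ 34 * RT m k k * BP k by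
      have : 0 < 34 * RT m k k * BP k := by positivity
      omega)
  have h2 : (1 : ℝ) ≤ (BP k : ℝ) := by exact_mod_cast hB
  unfold Lk
  have := Real.log_nonneg h1
  have := Real.log_nonneg h2
  positivity

/-- **the pairs across SPLIT at a distance at least `8 SS`** -/
theorem splitMid_rp (hm : 2 ≤ m) (k : ℕ) : ∃ (K0 : ℕ) (C1 : ℝ), 0 ≤ C1 ∧
    ∀ l l', K0 ≤ l' → l' ≤ l → CaseSplitMid m k l' l →
    ∀ K : Finset Key, keysOf m k l ⊆ K → keysOf m k l' ⊆ K →
    PrG (Mk m k) K (fun w => ∃ c, RpC m k l l' w c ∧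
      C1 * (l : ℝ) ^ (((3 : ℕ) : ℝ) / (m : ℝ)) < (c : ℝ))
      (2 * Real.exp (-((l : ℝ) ^ ((1 : ℝ) / 4)))) := by
  have hm0 : 0 < m := by omega
  obtain ⟨la, ha⟩ := Pool.Agent.Helper12.T5b.s3_fin hm0 k
  obtain ⟨lb, hb⟩ := Pool.Agent.Helper45.T5b.reg_okey hm k
  obtain ⟨lc, hc⟩ := Pool.Agent.Helper30.T5b.exists_late (k := k) hm0 1 0
  obtain ⟨ld, hdd⟩ := Pool.Agent.Helper27.T5b.exists_dbl hm0 k
  obtain ⟨le, hle⟩ := Pool.Agent.Helper27.T5b.exists_AA_range hm0 k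
  obtain ⟨lf, hlf⟩ := Pool.Agent.Helper27.T5b.exists_bL hm0 k 1
  obtain ⟨C', hC'⟩ := exists_nat_ge (2 * (58 + Lk m k))
  set CC : ℕ := 2 * 1000038 * (2 * ((2 * BP k) ^ 7 * (C3 k * C3 k ^ k))) with hCC
  refine ⟨la + lb + lc + ld + le + lf + 1, (CC : ℝ) * (33 * C'), by positivity, ?_⟩
  intro l l' hl' hll hcase K hK hK'
  obtain ⟨hN, hS, hD1, hD2⟩ := hcase
  obtain ⟨p1, p2, p3, -, p5⟩ := hc l (by omega)
  obtain ⟨p1', p2', p3', -, p5'⟩ := hc l' (by omega)
  have hev := splitEv_of hm0 hll p2' p3' hN hS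
  have hP := Pool.Agent.Helper48.T5b.SplitP_of hm0 hll hev
  have hSpos := SS_pos m (sL m k l')
  have hlt : l' < l := by omega
  have hd := Pool.Agent.Helper48.T5b.SplitDig_of hm0 hlt hev
  obtain ⟨s, hs⟩ : ∃ s, Pool.Agent.Helper37.T5b.lv m k (era (mL m k l)) = s := ⟨_, rfl⟩
  rw [hs] at hP
  have hs1 := hP.s1
  have hs' := hP.s'
  -- moduli of the positions
  have hC : ∀ x, l' ≤ x → x ≤ ez m (sL m k l) l →
      NL m k x = RT m k (sL m k l) * Jn m k (sL m k l) x := by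
    intro x hx1 hx2
    rw [hs1]
    have e1 := Pool.Agent.Helper48.T5b.ez_le_SS hm0 (s + 1) l
    rw [hs1] at hx2
    exact Pool.Agent.Helper48.T5b.NL_eq_Jn
      ((hP.win x hx1 (by omega)).cpl_succ hm0 (by rw [hs']))
  have hSS1 : SS m (sL m k l + 1) ≤ mL m k l := Pool.Agent.Helper30.T5b.SS_sv_succ_le' hm0 p2 p3
  have hmLl : mL m k l ≤ l := Pool.Agent.Helper27.T5b.l1_le (ins m k) l
  have hSSl : SS m (sL m k l) ≤ l := (SS_mono m (Nat.le_succ _)).trans (hSS1.trans hmLl)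
  have hD3 : l - l' ≤ 2 ^ 20 * SS m (sL m k l) := by
    have : 200 * SS m (sL m k l) ≤ 2 ^ 20 * SS m (sL m k l) := Nat.mul_le_mul_right _ (by norm_num)
    omega
  have hl1 : 1 ≤ l := by omega
  have hlr : (1 : ℝ) ≤ l := by exact_mod_cast hl1
  have hreg : PrG (Mk m k) K (fun w => ¬ GoodR m k l w)
      (Real.exp (-(2 * (SS m (sL m k l - 0 + 1) : ℝ)))) := by
    refine hb l (by omega) 0 ?_ K ?_
    · rw [hP.rL1]
      omega
    · intro x hx i y hy
      refine hK (Skey_mem hm0 p2 ?_ (okey_lt hm0 p2 hx 0) hy i)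
      rw [hP.rL1]
      omega
  obtain ⟨hdb', hNL'⟩ := hdd l' (by omega)
  set a := SS m (sL m k l') with hadef
  set mm := C' * l / a with hmm
  have hall := s3_all hm0 hP hd hev.keyed' p2 p2' hdb' hNL' (Un_short hm0 hP hC hD1)
    (fun o o' nB nR nY => ha l' l o o' (by omega) hd hD1 hD3 hC nB nR nY)
    (fun w n hn => by
      have h1 : 0 < Rp m k l l' w n := hn
      unfold Rp at h1
      obtain ⟨⟨u, u'⟩, hu⟩ := card_pos.1 h1
      rw [mem_filter, mem_product] at hu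
      obtain ⟨⟨hu1, hu2⟩, hu3⟩ := hu
      obtain ⟨-, b1, -⟩ := hle l (by omega) w u hu1
      obtain ⟨-, b2, -⟩ := hle l' (by omega) w u' hu2
      have b3 := Pool.Agent.Helper30.T5b.NL_mono m k hll
      simp only at hu3
      omega) hK hK' hreg mm
  have har : (0 : ℝ) < a := by exact_mod_cast hSpos
  refine PrG_mono ?_ ?_ hall
  · -- the counts
    intro r _ hB
    obtain ⟨c, ⟨n, rfl⟩, hc1⟩ := hB
    refine ⟨n, ?_⟩
    have h1 : ((2 * 1000038 * (2 * ((MSp m k l' l 0 0).C * (C3 k * C3 k ^ k)) * mm) : ℕ) : ℝ) ≤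
        (CC : ℝ) * (33 * C') * (l : ℝ) ^ (((3 : ℕ) : ℝ) / (m : ℝ)) := by
      have e1 : (2 * 1000038 * (2 * ((MSp m k l' l 0 0).C * (C3 k * C3 k ^ k)) * mm) : ℕ) ≤
          CC * mm := by
        have e2 : (MSp m k l' l 0 0).C ≤ (2 * BP k) ^ 7 := Pool.Agent.Helper12.T5b.MSp_C_le
        rw [hCC]
        calc 2 * 1000038 * (2 * ((MSp m k l' l 0 0).C * (C3 k * C3 k ^ k)) * mm)
            ≤ 2 * 1000038 * (2 * ((2 * BP k) ^ 7 * (C3 k * C3 k ^ k)) * mm) := by gcongr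
          _ = _ := by ring
      have e3 : (mm : ℝ) ≤ C' * l / a := by
        rw [hmm]
        refine Nat.cast_div_le.trans (le_of_eq ?_)
        push_cast
        rfl
      have e4 : (l : ℝ) ≤ 33 * ((l : ℝ) ^ (((3 : ℕ) : ℝ) / (m : ℝ)) * a) := by
        have f1 := Pool.Agent.Helper30.T5b.le_rpow_mul_SS (k := k) (i := 1) hm0 p2 p3 (by
          show 1 ≤ sL m k l
          omega)
        have f2 : sv m k (Pool.Agent.Helper27.T5b.l1 (ins m k) l) - 1 = sL m k l' := by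
          show sL m k l - 1 = sL m k l'
          omega
        have f3 : (mL m k l : ℝ) ≤ 2 ^ (1 + 4) * (mL m k l : ℝ) ^ ((((1 : ℕ) : ℝ) + 2) / m) *
            (a : ℝ) := by
          have f4 : sv m k (mL m k l) - 1 = sL m k l' := f2
          have f5 : (mL m k l : ℝ) ≤ 2 ^ (1 + 4) * (mL m k l : ℝ) ^ ((((1 : ℕ) : ℝ) + 2) / m) *
            (SS m (sv m k (mL m k l) - 1) : ℝ) := f1
          rw [f4] at f5
          exact f5
        have f6 : (mL m k l : ℝ) ^ ((((1 : ℕ) : ℝ) + 2) / m) ≤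
            (l : ℝ) ^ (((3 : ℕ) : ℝ) / (m : ℝ)) := by
          have g1 : (((1 : ℕ) : ℝ) + 2) / m = ((3 : ℕ) : ℝ) / (m : ℝ) := by norm_num
          rw [g1]
          exact Real.rpow_le_rpow (Nat.cast_nonneg _) (by exact_mod_cast hmLl) (by positivity)
        have f7 : (1000 : ℝ) * l ≤ 1001 * mL m k l := by exact_mod_cast p5
        have f8 : (mL m k l : ℝ) ≤ 32 * ((l : ℝ) ^ (((3 : ℕ) : ℝ) / (m : ℝ)) * a) := by
          calc (mL m k l : ℝ) ≤ 2 ^ (1 + 4) * (mL m k l : ℝ) ^ ((((1 : ℕ) : ℝ) + 2) / m) *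
            (a : ℝ) := f3
            _ ≤ 2 ^ (1 + 4) * (l : ℝ) ^ (((3 : ℕ) : ℝ) / (m : ℝ)) * (a : ℝ) := by gcongr
            _ = _ := by ring
        have f9 : (0 : ℝ) ≤ (l : ℝ) ^ (((3 : ℕ) : ℝ) / (m : ℝ)) * a := by positivity
        nlinarith
      have e5 : (C' : ℝ) * l / a ≤ 33 * C' * (l : ℝ) ^ (((3 : ℕ) : ℝ) / (m : ℝ)) := by
        rw [div_le_iff₀ har]
        calc (C' : ℝ) * l ≤ C' * (33 * ((l : ℝ) ^ (((3 : ℕ) : ℝ) / (m : ℝ)) * a)) := by gcongr
          _ = _ := by ring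
      calc ((2 * 1000038 * (2 * ((MSp m k l' l 0 0).C * (C3 k * C3 k ^ k)) * mm) : ℕ) : ℝ)
          ≤ ((CC * mm : ℕ) : ℝ) := by exact_mod_cast e1
        _ = (CC : ℝ) * mm := by push_cast; ring
        _ ≤ (CC : ℝ) * (33 * C' * (l : ℝ) ^ (((3 : ℕ) : ℝ) / (m : ℝ))) :=
            mul_le_mul_of_nonneg_left (e3.trans e5) (Nat.cast_nonneg _)
        _ = _ := by ring
    have h2 := lt_of_le_of_lt h1 hc1
    exact_mod_cast h2
  · -- the probability
    have hmmr : (C' : ℝ) * l ≤ a * (mm + 1) := by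
      have h1 : C' * l < a * (C' * l / a + 1) := Nat.lt_mul_div_succ _ hSpos
      rw [← hmm] at h1
      exact_mod_cast h1.le
    have hb1 := bnd_le (k := k) (l' := l') (mm := mm) hm0 hl1 hSSl
    have hO1 := Pool.Agent.Helper45.T5b.card_OK (k := k) hm p2 (by omega) 0
    have hsl' : 1 ≤ sL m k l' := by
      obtain ⟨-, q2⟩ := hlf l' (by omega)
      have q3 := bL_le hm0 k l'
      omega
    have hO2 := Pool.Agent.Helper45.T5b.card_OK (k := k) hm p2' hsl' 0
    rw [Nat.sub_zero] at hO1 hO2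
    have hSr : (SS m (sL m k l + 1) : ℝ) ≤ l := by exact_mod_cast hSS1.trans hmLl
    have hSr' : (SS m (sL m k l' + 1) : ℝ) ≤ l := by
      have e1 : SS m (sL m k l' + 1) ≤ SS m (sL m k l + 1) := SS_mono m (by omega)
      exact_mod_cast e1.trans (hSS1.trans hmLl)
    have hO : (((OK m k l 0).card * (OK m k l' 0).card : ℕ) : ℝ) ≤ Real.exp (56 * l) := by
      push_cast
      calc ((OK m k l 0).card : ℝ) * ((OK m k l' 0).card : ℝ)
          ≤ Real.exp (28 * (SS m (sL m k l + 1) : ℝ)) *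
            Real.exp (28 * (SS m (sL m k l' + 1) : ℝ)) := by gcongr
        _ = Real.exp (28 * (SS m (sL m k l + 1) : ℝ) + 28 * (SS m (sL m k l' + 1) : ℝ)) :=
            (Real.exp_add _ _).symm
        _ ≤ _ := Real.exp_le_exp.2 (by linarith)
    have hLk := Lk_nonneg m k
    have h2 : (((OK m k l 0).card * (OK m k l' 0).card : ℕ) : ℝ) * bnd m k l' l mm ≤
        Real.exp (-(2 * (l : ℝ))) := by
      have e0 : 0 ≤ bnd m k l' l mm := by
        unfold bnd
        positivity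
      calc (((OK m k l 0).card * (OK m k l' 0).card : ℕ) : ℝ) * bnd m k l' l mm
          ≤ Real.exp (56 * l) * (Real.exp (Lk m k * l) *
            Real.exp (-((a : ℝ) / 2 * (mm + 1)))) := by gcongr
        _ = Real.exp (56 * l + (Lk m k * l + -((a : ℝ) / 2 * (mm + 1)))) := by
            rw [← Real.exp_add, ← Real.exp_add]
        _ ≤ _ := by
            refine Real.exp_le_exp.2 ?_
            have e1 : 2 * (58 + Lk m k) * l ≤ a * (mm + 1) :=
              (mul_le_mul_of_nonneg_right hC' (Nat.cast_nonneg _)).trans hmmr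
            nlinarith
    have hq1 : (l : ℝ) ^ ((1 : ℝ) / 4) ≤ 2 * (l : ℝ) := by
      have e1 : (l : ℝ) ^ ((1 : ℝ) / 4) ≤ (l : ℝ) ^ (1 : ℝ) :=
        Real.rpow_le_rpow_of_exponent_le hlr (by norm_num)
      rw [Real.rpow_one] at e1
      linarith
    have hq2 : (l : ℝ) ^ ((1 : ℝ) / 4) ≤ 2 * (SS m (sL m k l - 0 + 1) : ℝ) := by
      rw [Nat.sub_zero]
      have e1 := Pool.Agent.Helper30.T5b.lt_SS hm0 k p2
      have e2 := Pool.Agent.Helper45.T5b.SS_succ_le_sq hm (sL m k l + 1)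
      have e3 : mL m k l < 4 * SS m (sL m k l + 1) ^ 2 :=
        lt_of_lt_of_le e1 (Nat.mul_le_mul_left _ e2)
      have e4 : 1 ≤ SS m (sL m k l + 1) := SS_pos m _
      have e5 : l ≤ (2 * SS m (sL m k l + 1)) ^ 4 := by
        have f1 : l ≤ 2 * mL m k l := by
          have : 1000 * l ≤ 1001 * mL m k l := p5
          omega
        have f2 : SS m (sL m k l + 1) ^ 2 ≤ SS m (sL m k l + 1) ^ 4 :=
          Nat.pow_le_pow_right e4 (by norm_num)
        calc l ≤ 2 * mL m k l := f1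
          _ ≤ 2 * (4 * SS m (sL m k l + 1) ^ 2) := Nat.mul_le_mul_left _ e3.le
          _ ≤ 16 * SS m (sL m k l + 1) ^ 4 := by omega
          _ = _ := by ring
      have e6 : (l : ℝ) ≤ (2 * (SS m (sL m k l + 1) : ℝ)) ^ (4 : ℕ) := by exact_mod_cast e5
      calc (l : ℝ) ^ ((1 : ℝ) / 4)
          ≤ ((2 * (SS m (sL m k l + 1) : ℝ)) ^ (4 : ℕ)) ^ ((1 : ℝ) / 4) :=
            Real.rpow_le_rpow (Nat.cast_nonneg _) e6 (by norm_num)
        _ = 2 * (SS m (sL m k l + 1) : ℝ) := by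
            rw [← Real.rpow_natCast, ← Real.rpow_mul (by positivity)]
            norm_num
    calc Real.exp (-(2 * (SS m (sL m k l - 0 + 1) : ℝ))) +
          (((OK m k l 0).card * (OK m k l' 0).card : ℕ) : ℝ) * bnd m k l' l mm
        ≤ Real.exp (-((l : ℝ) ^ ((1 : ℝ) / 4))) + Real.exp (-((l : ℝ) ^ ((1 : ℝ) / 4))) := by
          refine add_le_add (Real.exp_le_exp.2 (by linarith)) (h2.trans ?_)
          exact Real.exp_le_exp.2 (by linarith)
      _ = _ := by ring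

/-- **T5b, line 10: the pairs across SPLIT, middle distance** -/
theorem splitMid : Blk CaseSplitMid RpC := by
  refine ⟨3, 2, fun m hm => ?_⟩
  obtain ⟨K0, C1, h1, h2⟩ := splitMid_rp hm (m ^ 2)
  exact ⟨K0, C1, 1 / 4, 2, h1, by norm_num, by norm_num, fun l l' hl' hll hP K hK hK' =>
    h2 l l' hl' hll hP K hK hK'⟩

end Pool.Agent.Helper54.T5b
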