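import Pool.Agent.Helper54.T5b.SMFix
import Pool.Agent.Helper98.S3P.Top

/-!
# T5b: `Blk TwoFar RpC`: `CaseSplitTwo` with `7 SS ≤ 20 (l - l')`
-/

set_option autoImplicit false

namespace Pool.Agent.Helper54.T5b

open Finset Pool.Agent.Helper27.T4 Pool.Agent.Helper84.T5b Pool.Agent.Helper37.T5b
open Pool.Agent.Helper5.ET (mask bb era)
open Pool.Agent.Helper30.T5b (pz QF QT RT ez NL BP)
open Pool.Agent.Helper39.T5 Pool.Agent.Helper50.T5 Pool.Agent.Helper57.T5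
open Pool.Agent.Helper3.T5 (MP)
open Pool.Agent.Helper48.T5b (SplitP gS cT)
open Pool.Agent.Helper45.T5b (IsWinB OK)
open Pool.Agent.Helper22.SL
open Pool.Agent.Helper98.S3P (TwoFar GoodT)

variable {m k : ℕ}

theorem bnd4_le {l' l mm : ℕ} (hm : 0 < m) (hl : 1 ≤ l) (hS : SS m (sL m k l) ≤ l) :
    bnd4 m k l' l mm ≤ Real.exp (Lk m k * l) *
      Real.exp (-((SS m (sL m k l') : ℝ) / 50 * (mm + 1))) := by
  have hB := Pool.Agent.Helper30.T5b.BP_pos k
  have hR := Pool.Agent.Helper30.T5b.RT_pos m k k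
  have hBr : (0 : ℝ) < BP k := by exact_mod_cast hB
  have h1 : 34 * NL m k l ≤ (34 * RT m k k * BP k) ^ l := by
    calc 34 * NL m k l ≤ 34 * (RT m k k * BP k ^ l) :=
          Nat.mul_le_mul_left _ (Pool.Agent.Helper30.T5b.NL_le_pow m k l)
      _ = (34 * RT m k k) * BP k ^ l := by ring
      _ ≤ (34 * RT m k k) ^ l * BP k ^ l := by
          refine Nat.mul_le_mul_right _ ?_
          exact Nat.le_self_pow (by omega) _
      _ = _ := (mul_pow _ _ _).symm
  have hG : (0 : ℝ) < ((34 * RT m k k * BP k : ℕ) : ℝ) := by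
    exact_mod_cast (show 0 < 34 * RT m k k * BP k by positivity)
  have h2 : ((34 * NL m k l : ℕ) : ℝ) ≤
      Real.exp (Real.log ((34 * RT m k k * BP k : ℕ) : ℝ) * l) := by
    rw [Real.exp_mul, Real.exp_log hG, Real.rpow_natCast]
    exact_mod_cast h1
  have h3 : ((MSp m k l' l 0 0).q : ℝ) ^ 2 ≤ Real.exp (4 * Real.log (BP k) * l) := by
    have e1 : ((MSp m k l' l 0 0).q : ℝ) ≤ (BP k : ℝ) ^ (2 * l) := by
      exact_mod_cast q_le (k := k) (l' := l') (l := l) hm hS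
    have e2 : Real.exp (4 * Real.log (BP k) * l) = (BP k : ℝ) ^ (4 * l) := by
      have e3 : 4 * Real.log (BP k) * l = Real.log (BP k) * ((4 * l : ℕ) : ℝ) := by
        push_cast
        ring
      rw [e3, Real.exp_mul, Real.exp_log hBr, Real.rpow_natCast]
    rw [e2]
    calc ((MSp m k l' l 0 0).q : ℝ) ^ 2 ≤ ((BP k : ℝ) ^ (2 * l)) ^ 2 := by gcongr
      _ = _ := by rw [← pow_mul]; congr 1; ring
  have h5 : (Real.exp (-((SS m (sL m k l') : ℝ) / 50))) ^ (mm + 1) =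
      Real.exp (-((SS m (sL m k l') : ℝ) / 50 * (mm + 1))) := by
    rw [← Real.exp_nat_mul]
    congr 1
    push_cast
    ring
  unfold bnd4 Lk
  rw [h5]
  calc ((34 * NL m k l : ℕ) : ℝ) * (((MSp m k l' l 0 0).q : ℝ) ^ 2 *
        Real.exp (-((SS m (sL m k l') : ℝ) / 50 * (mm + 1))))
      ≤ Real.exp (Real.log ((34 * RT m k k * BP k : ℕ) : ℝ) * l) *
        (Real.exp (4 * Real.log (BP k) * l) *
          Real.exp (-((SS m (sL m k l') : ℝ) / 50 * (mm + 1)))) := by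
        gcongr
    _ = _ := by
        rw [← Real.exp_add, ← Real.exp_add, ← Real.exp_add]
        congr 1
        ring

/-- **the pairs across SPLIT at a distance between `.35 SS` and `8 SS`** -/
theorem twoFar_rp (hm : 2 ≤ m) (k : ℕ) (hk1 : 1 ≤ k) : ∃ (K0 : ℕ) (C1 : ℝ), 0 ≤ C1 ∧
    ∀ l l', K0 ≤ l' → l' ≤ l → TwoFar m k l' l →
    ∀ K : Finset Key, keysOf m k l ⊆ K → keysOf m k l' ⊆ K →
    PrG (Mk m k) K (fun w => ∃ c, RpC m k l l' w c ∧
      C1 * (l : ℝ) ^ (((3 : ℕ) : ℝ) / (m : ℝ)) < (c : ℝ))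
      (4 * Real.exp (-((l : ℝ) ^ ((1 : ℝ) / 8)))) := by
  have hm0 : 0 < m := by omega
  obtain ⟨la, ha⟩ := Pool.Agent.Helper98.S3P.num hm hk1
  obtain ⟨lb, hb⟩ := Pool.Agent.Helper98.S3P.goodT_pr hm hk1
  obtain ⟨lc, hc⟩ := Pool.Agent.Helper30.T5b.exists_late (k := k) hm0 1 0
  obtain ⟨ld, hdd⟩ := Pool.Agent.Helper27.T5b.exists_dbl hm0 k
  obtain ⟨le, hle⟩ := Pool.Agent.Helper27.T5b.exists_AA_range hm0 k
  obtain ⟨lf, hlf⟩ := Pool.Agent.Helper27.T5b.exists_bL hm0 k 1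
  obtain ⟨lg, hlg⟩ := Pool.Agent.Helper98.S3P.Un_short' hm hk1
  obtain ⟨C', hC'⟩ := exists_nat_ge (50 * (58 + Lk m k))
  set CC : ℕ := 2 * 1000038 * (2 * ((2 * BP k) ^ 7 * (C3 k * C3 k ^ k))) with hCC
  refine ⟨la + lb + lc + ld + le + lf + lg + 1, (CC : ℝ) * (33 * C'), by positivity, ?_⟩
  intro l l' hl' hll hcase K hK hK'
  obtain ⟨⟨hN, hS, hef, hD2⟩, hD1⟩ := hcase
  obtain ⟨p1, p2, p3, -, p5⟩ := hc l (by omega)
  obtain ⟨p1', p2', p3', -, p5'⟩ := hc l' (by omega)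
  have hev := splitEv_of hm0 hll p2' p3' hN hS
  have hP := Pool.Agent.Helper48.T5b.SplitP_of hm0 hll hev
  have hSpos := SS_pos m (sL m k l')
  have hlt : l' < l := by omega
  have hd := Pool.Agent.Helper48.T5b.SplitDig_of hm0 hlt hev
  obtain ⟨s, hs⟩ : ∃ s, Pool.Agent.Helper37.T5b.lv m k (era (mL m k l)) = s := ⟨_, rfl⟩
  rw [hs] at hP
  have hs1 := hP.s1
  have hs' := hP.s'
  have hP' : SplitP m k (sL m k l') l' l := by
    rw [hs']
    exact hP
  -- moduli of the positions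
  have hC : ∀ x, l' ≤ x → x ≤ ez m (sL m k l) l →
      NL m k x = RT m k (sL m k l) * Jn m k (sL m k l) x := by
    intro x hx1 hx2
    rw [hs1]
    have e1 := Pool.Agent.Helper48.T5b.ez_le_SS hm0 (s + 1) l
    rw [hs1] at hx2
    exact Pool.Agent.Helper48.T5b.NL_eq_Jn
      ((hP.win x hx1 (by omega)).cpl_succ hm0 (by rw [hs']))
  have hSS1 : SS m (sL m k l + 1) ≤ mL m k l := Pool.Agent.Helper30.T5b.SS_sv_succ_le' hm0 p2 p3
  have hmLl : mL m k l ≤ l := Pool.Agent.Helper27.T5b.l1_le (ins m k) l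
  have hSSl : SS m (sL m k l) ≤ l := (SS_mono m (Nat.le_succ _)).trans (hSS1.trans hmLl)
  have hl1 : 1 ≤ l := by omega
  have hlr : (1 : ℝ) ≤ l := by exact_mod_cast hl1
  have hreg : PrG (Mk m k) K (fun w => ¬ GoodT m k l' l w)
      (3 * Real.exp (-(2 * (SS m (sL m k l) : ℝ)))) := hb l' l (by omega) hll hP' K hK hK'
  obtain ⟨hdb', hNL'⟩ := hdd l' (by omega)
  set a := SS m (sL m k l') with hadef
  set mm := C' * l / a with hmm
  have hall := s4_all hm0 hP hd hev.keyed' p2 p2' hdb' hNL'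
    (hlg l' l (by omega) hP' hD1 hC)
    (fun o o' nY hnY => ha l' l o o' (by omega) hd hP' hef hD1 hD2.le hC nY hnY)
    (fun w n hn => by
      have h1 : 0 < Rp m k l l' w n := hn
      unfold Rp at h1
      obtain ⟨⟨u, u'⟩, hu⟩ := card_pos.1 h1
      rw [mem_filter, mem_product] at hu
      obtain ⟨⟨hu1, hu2⟩, hu3⟩ := hu
      obtain ⟨-, b1, -⟩ := hle l (by omega) w u hu1
      obtain ⟨-, b2, -⟩ := hle l' (by omega) w u' hu2
      have b3 := Pool.Agent.Helper30.T5b.NL_mono m k hll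
      simp only at hu3
      omega) hK hK' hreg mm
  have har : (0 : ℝ) < a := by exact_mod_cast hSpos
  refine PrG_mono ?_ ?_ hall
  · -- the counts
    intro r _ hB
    obtain ⟨c, ⟨n, rfl⟩, hc1⟩ := hB
    refine ⟨n, ?_⟩
    have h1 : ((2 * 1000038 * (2 * ((MSp m k l' l 0 0).C * (C3 k * C3 k ^ k)) * mm) : ℕ) : ℝ) ≤
        (CC : ℝ) * (33 * C') * (l : ℝ) ^ (((3 : ℕ) : ℝ) / (m : ℝ)) := by
      have e1 : (2 * 1000038 * (2 * ((MSp m k l' l 0 0).C * (C3 k * C3 k ^ k)) * mm) : ℕ) ≤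
          CC * mm := by
        have e2 : (MSp m k l' l 0 0).C ≤ (2 * BP k) ^ 7 := Pool.Agent.Helper12.T5b.MSp_C_le
        rw [hCC]
        calc 2 * 1000038 * (2 * ((MSp m k l' l 0 0).C * (C3 k * C3 k ^ k)) * mm)
            ≤ 2 * 1000038 * (2 * ((2 * BP k) ^ 7 * (C3 k * C3 k ^ k)) * mm) := by gcongr
          _ = _ := by ring
      have e3 : (mm : ℝ) ≤ C' * l / a := by
        rw [hmm]
        refine Nat.cast_div_le.trans (le_of_eq ?_)
        push_cast
        rfl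
      have e4 : (l : ℝ) ≤ 33 * ((l : ℝ) ^ (((3 : ℕ) : ℝ) / (m : ℝ)) * a) := by
        have f1 := Pool.Agent.Helper30.T5b.le_rpow_mul_SS (k := k) (i := 1) hm0 p2 p3 (by
          show 1 ≤ sL m k l
          omega)
        have f2 : sv m k (Pool.Agent.Helper27.T5b.l1 (ins m k) l) - 1 = sL m k l' := by
          show sL m k l - 1 = sL m k l'
          omega
        have f3 : (mL m k l : ℝ) ≤ 2 ^ (1 + 4) * (mL m k l : ℝ) ^ ((((1 : ℕ) : ℝ) + 2) / m) *
            (a : ℝ) := by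
          have f4 : sv m k (mL m k l) - 1 = sL m k l' := f2
          have f5 : (mL m k l : ℝ) ≤ 2 ^ (1 + 4) * (mL m k l : ℝ) ^ ((((1 : ℕ) : ℝ) + 2) / m) *
            (SS m (sv m k (mL m k l) - 1) : ℝ) := f1
          rw [f4] at f5
          exact f5
        have f6 : (mL m k l : ℝ) ^ ((((1 : ℕ) : ℝ) + 2) / m) ≤
            (l : ℝ) ^ (((3 : ℕ) : ℝ) / (m : ℝ)) := by
          have g1 : (((1 : ℕ) : ℝ) + 2) / m = ((3 : ℕ) : ℝ) / (m : ℝ) := by norm_num
          rw [g1]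
          exact Real.rpow_le_rpow (Nat.cast_nonneg _) (by exact_mod_cast hmLl) (by positivity)
        have f7 : (1000 : ℝ) * l ≤ 1001 * mL m k l := by exact_mod_cast p5
        have f8 : (mL m k l : ℝ) ≤ 32 * ((l : ℝ) ^ (((3 : ℕ) : ℝ) / (m : ℝ)) * a) := by
          calc (mL m k l : ℝ) ≤ 2 ^ (1 + 4) * (mL m k l : ℝ) ^ ((((1 : ℕ) : ℝ) + 2) / m) *
            (a : ℝ) := f3
            _ ≤ 2 ^ (1 + 4) * (l : ℝ) ^ (((3 : ℕ) : ℝ) / (m : ℝ)) * (a : ℝ) := by gcongr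
            _ = _ := by ring
        have f9 : (0 : ℝ) ≤ (l : ℝ) ^ (((3 : ℕ) : ℝ) / (m : ℝ)) * a := by positivity
        nlinarith
      have e5 : (C' : ℝ) * l / a ≤ 33 * C' * (l : ℝ) ^ (((3 : ℕ) : ℝ) / (m : ℝ)) := by
        rw [div_le_iff₀ har]
        calc (C' : ℝ) * l ≤ C' * (33 * ((l : ℝ) ^ (((3 : ℕ) : ℝ) / (m : ℝ)) * a)) := by gcongr
          _ = _ := by ring
      calc ((2 * 1000038 * (2 * ((MSp m k l' l 0 0).C * (C3 k * C3 k ^ k)) * mm) : ℕ) : ℝ)
          ≤ ((CC * mm : ℕ) : ℝ) := by exact_mod_cast e1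
        _ = (CC : ℝ) * mm := by push_cast; ring
        _ ≤ (CC : ℝ) * (33 * C' * (l : ℝ) ^ (((3 : ℕ) : ℝ) / (m : ℝ))) :=
            mul_le_mul_of_nonneg_left (e3.trans e5) (Nat.cast_nonneg _)
        _ = _ := by ring
    have h2 := lt_of_le_of_lt h1 hc1
    exact_mod_cast h2
  · -- the probability
    have hmmr : (C' : ℝ) * l ≤ a * (mm + 1) := by
      have h1 : C' * l < a * (C' * l / a + 1) := Nat.lt_mul_div_succ _ hSpos
      rw [← hmm] at h1
      exact_mod_cast h1.le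
    have hb1 := bnd4_le (k := k) (l' := l') (mm := mm) hm0 hl1 hSSl
    have hO1 := Pool.Agent.Helper45.T5b.card_OK (k := k) hm p2 (by omega) 0
    have hsl' : 1 ≤ sL m k l' := by
      obtain ⟨-, q2⟩ := hlf l' (by omega)
      have q3 := bL_le hm0 k l'
      omega
    have hO2 := Pool.Agent.Helper45.T5b.card_OK (k := k) hm p2' hsl' 0
    rw [Nat.sub_zero] at hO1 hO2
    have hSr : (SS m (sL m k l + 1) : ℝ) ≤ l := by exact_mod_cast hSS1.trans hmLl
    have hSr' : (SS m (sL m k l' + 1) : ℝ) ≤ l := by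
      have e1 : SS m (sL m k l' + 1) ≤ SS m (sL m k l + 1) := SS_mono m (by omega)
      exact_mod_cast e1.trans (hSS1.trans hmLl)
    have hO : (((OK m k l 0).card * (OK m k l' 0).card : ℕ) : ℝ) ≤ Real.exp (56 * l) := by
      push_cast
      calc ((OK m k l 0).card : ℝ) * ((OK m k l' 0).card : ℝ)
          ≤ Real.exp (28 * (SS m (sL m k l + 1) : ℝ)) *
            Real.exp (28 * (SS m (sL m k l' + 1) : ℝ)) := by gcongr
        _ = Real.exp (28 * (SS m (sL m k l + 1) : ℝ) + 28 * (SS m (sL m k l' + 1) : ℝ)) :=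
            (Real.exp_add _ _).symm
        _ ≤ _ := Real.exp_le_exp.2 (by linarith)
    have hLk := Lk_nonneg m k
    have h2 : (((OK m k l 0).card * (OK m k l' 0).card : ℕ) : ℝ) * bnd4 m k l' l mm ≤
        Real.exp (-(2 * (l : ℝ))) := by
      have e0 : 0 ≤ bnd4 m k l' l mm := by
        unfold bnd4
        positivity
      calc (((OK m k l 0).card * (OK m k l' 0).card : ℕ) : ℝ) * bnd4 m k l' l mm
          ≤ Real.exp (56 * l) * (Real.exp (Lk m k * l) *
            Real.exp (-((a : ℝ) / 50 * (mm + 1)))) := by gcongr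
        _ = Real.exp (56 * l + (Lk m k * l + -((a : ℝ) / 50 * (mm + 1)))) := by
            rw [← Real.exp_add, ← Real.exp_add]
        _ ≤ _ := by
            refine Real.exp_le_exp.2 ?_
            have e1 : 50 * (58 + Lk m k) * l ≤ a * (mm + 1) :=
              (mul_le_mul_of_nonneg_right hC' (Nat.cast_nonneg _)).trans hmmr
            nlinarith
    have hq1 : (l : ℝ) ^ ((1 : ℝ) / 8) ≤ 2 * (l : ℝ) := by
      have e1 : (l : ℝ) ^ ((1 : ℝ) / 8) ≤ (l : ℝ) ^ (1 : ℝ) :=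
        Real.rpow_le_rpow_of_exponent_le hlr (by norm_num)
      rw [Real.rpow_one] at e1
      linarith
    have hq2 : (l : ℝ) ^ ((1 : ℝ) / 8) ≤ 2 * (SS m (sL m k l) : ℝ) := by
      have e1 := Pool.Agent.Helper30.T5b.lt_SS hm0 k p2
      have e2 := Pool.Agent.Helper45.T5b.SS_succ_le_sq hm (sL m k l + 1)
      have e2' := Pool.Agent.Helper45.T5b.SS_succ_le_sq hm (sL m k l)
      have e3 : mL m k l < 4 * (SS m (sL m k l) ^ 2) ^ 2 :=
        lt_of_lt_of_le e1 (Nat.mul_le_mul_left _ (e2.trans (Nat.pow_le_pow_left e2' 2)))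
      have e4 : 1 ≤ SS m (sL m k l) := SS_pos m _
      have e5 : l ≤ (2 * SS m (sL m k l)) ^ 8 := by
        have f1 : l ≤ 2 * mL m k l := by
          have : 1000 * l ≤ 1001 * mL m k l := p5
          omega
        have f2 : (SS m (sL m k l) ^ 2) ^ 2 ≤ SS m (sL m k l) ^ 8 := by
          rw [← pow_mul]
          exact Nat.pow_le_pow_right e4 (by norm_num)
        calc l ≤ 2 * mL m k l := f1
          _ ≤ 2 * (4 * (SS m (sL m k l) ^ 2) ^ 2) := Nat.mul_le_mul_left _ e3.le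
          _ ≤ 256 * SS m (sL m k l) ^ 8 := by omega
          _ = _ := by ring
      have e6 : (l : ℝ) ≤ (2 * (SS m (sL m k l) : ℝ)) ^ (8 : ℕ) := by exact_mod_cast e5
      calc (l : ℝ) ^ ((1 : ℝ) / 8)
          ≤ ((2 * (SS m (sL m k l) : ℝ)) ^ (8 : ℕ)) ^ ((1 : ℝ) / 8) :=
            Real.rpow_le_rpow (Nat.cast_nonneg _) e6 (by norm_num)
        _ = 2 * (SS m (sL m k l) : ℝ) := by
            rw [← Real.rpow_natCast, ← Real.rpow_mul (by positivity)]
            norm_num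
    calc 3 * Real.exp (-(2 * (SS m (sL m k l) : ℝ))) +
          (((OK m k l 0).card * (OK m k l' 0).card : ℕ) : ℝ) * bnd4 m k l' l mm
        ≤ 3 * Real.exp (-((l : ℝ) ^ ((1 : ℝ) / 8))) + Real.exp (-((l : ℝ) ^ ((1 : ℝ) / 8))) := by
          refine add_le_add (mul_le_mul_of_nonneg_left (Real.exp_le_exp.2 (by linarith))
            (by norm_num)) (h2.trans ?_)
          exact Real.exp_le_exp.2 (by linarith)
      _ = _ := by ring

/-- **T5b, line 10: `CaseSplitTwo`, middle distance** -/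
theorem splitTwoFar : Blk TwoFar RpC := by
  refine ⟨3, 2, fun m hm => ?_⟩
  obtain ⟨K0, C1, h1, h2⟩ := twoFar_rp hm (m ^ 2) (Nat.one_le_pow _ _ (by omega))
  exact ⟨K0, C1, 1 / 8, 4, h1, by norm_num, by norm_num, fun l l' hl' hll hP K hK hK' =>
    h2 l l' hl' hll hP K hK hK'⟩

end Pool.Agent.Helper54.T5b
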