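import Pool.Agent.Helper54.T5b.S3Win
import Pool.Agent.Helper45.T5b.Outer
import Pool.Agent.Helper84.T5b.Pair

/-!
# T5b, (S3): the representations of a pair across SPLIT and the tuples of fixed outer keys
-/

set_option autoImplicit false

namespace Pool.Agent.Helper54.T5b

open Finset Pool.Agent.Helper27.T4 Pool.Agent.Helper84.T5b Pool.Agent.Helper37.T5b
open Pool.Agent.Helper5.ET (mask bb)
open Pool.Agent.Helper30.T5b (pz QF QT RT ez NL BP)
open Pool.Agent.Helper39.T5 Pool.Agent.Helper50.T5 Pool.Agent.Helper57.T5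
open Pool.Agent.Helper3.T5 (MP)
open Pool.Agent.Helper48.T5b (SplitP gS cT)
open Pool.Agent.Helper45.T5b (IsWinB OK)
open Pool.Agent.Helper54.T5 (cdQ)

variable {m k s l' l : ℕ}

/-- the upper windows with the outer key `o` -/
noncomputable def ZU (m k l : ℕ) (w : Key → ℕ) (o : JF → ℕ) : Finset ℕ :=
  (Ys m k l 0 ×ˢ Zo m k l 1 w 0).image (fun z => cs m k l 0 w o z.1 + z.2)

/-- the tuples with fixed outer keys and given sum -/
noncomputable def tup (m k s l' l : ℕ) (o o' : JF → ℕ)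
    (hM : (MSp m k l' l o o').Ok (Mk m k)) (w : Key → ℕ) (n : ℕ) :
    Finset (((JF → ℕ) × (JF → ℕ)) × ((Fin 3 → ℕ) × (ℕ × ℕ))) :=
  open Classical in
  (((MSp m k l' l o o').X ×ˢ (MSp m k l' l o o').X') ×ˢ
    (Yn m k l' ×ˢ (ZU m k l w o ×ˢ Zo m k l' 0 w o'))).filter
    (fun z => (MSp m k l' l o o').cd hM w z.1.1 +
      cdQ (MSp m k l' l o o') hM (QT m k (sL m k l)) (gS m k s l' w) w z.1.2 z.2.1 +
        (z.2.2.1 + z.2.2.2) = n)

/-! ## the outer keys are functions of the buffer coordinate -/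

theorem okey_up (hd : SplitDig m k l' l) {x z : JF → ℕ} (hx : x ∈ XJ m k l)
    (hz : z ∈ XJ m k l) (h : x (Sum.inr 0) = z (Sum.inr 0)) : okey m k l 0 x = okey m k l 0 z := by
  have h1 : ∀ y ∈ XJ m k l, ∀ f : Fin 3, y (Sum.inr f.succ) = 1 := by
    intro y hy f
    rcases mem_XJ.1 hy (Sum.inr f.succ) with h2 | h2
    · exact h2.2
    · exact absurd (hd.nb0 l hd.ll.le hd.le f) h2.1
  unfold okey
  rw [if_pos rfl, if_pos rfl]
  funext i
  unfold maskJ
  split_ifs with hi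
  · rcases i with f | i
    · exfalso
      unfold okeyF at hi
      split_ifs at hi
      · exact absurd (mem_filter.1 hi).2 (by simp)
      · exact absurd (mem_singleton.1 hi) (by simp)
    · revert hi
      refine Fin.cases (fun _ => h) (fun f _ => ?_) i
      rw [h1 x hx f, h1 z hz f]
  · rfl

theorem okey_low (hk : ¬ keyed m k (mL m k l')) {x z : JF → ℕ}
    (h : x (Sum.inr 0) = z (Sum.inr 0)) : okey m k l' 0 x = okey m k l' 0 z := by
  unfold okey okeyF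
  rw [if_pos rfl, if_pos rfl, if_neg hk]
  funext i
  unfold maskJ
  split_ifs with hi
  · rw [mem_singleton] at hi
    rw [hi]
    exact h
  · rfl

/-! ## the representations -/

theorem c0_eq_cd {o o' : JF → ℕ} (hM : (MSp m k l' l o o').Ok (Mk m k)) (w : Key → ℕ)
    (x : JF → ℕ) : c0 m k l w x = (MSp m k l' l o o').cd hM w x := rfl

open Classical in
/-- the vectors and windows with the sum `n` -/
noncomputable def hit (m k l' l : ℕ) (w : Key → ℕ) (n : ℕ) :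
    Finset (((JF → ℕ) × (JF → ℕ)) × (ℕ × ℕ)) :=
  ((XJ m k l ×ˢ XJ m k l').biUnion (fun x => (Zo m k l 0 w (okey m k l 0 x.1) ×ˢ
    Zo m k l' 0 w (okey m k l' 0 x.2)).image (fun b => (x, b)))).filter
    (fun z => (c0 m k l w z.1.1 + z.2.1) + (c0 m k l' w z.1.2 + z.2.2) = n)

theorem mem_hit {w : Key → ℕ} {n : ℕ} {z : ((JF → ℕ) × (JF → ℕ)) × (ℕ × ℕ)} :
    z ∈ hit m k l' l w n ↔ (z.1.1 ∈ XJ m k l ∧ z.1.2 ∈ XJ m k l') ∧
      (z.2.1 ∈ Zo m k l 0 w (okey m k l 0 z.1.1) ∧ z.2.2 ∈ Zo m k l' 0 w (okey m k l' 0 z.1.2)) ∧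
        (c0 m k l w z.1.1 + z.2.1) + (c0 m k l' w z.1.2 + z.2.2) = n := by
  unfold hit
  rw [mem_filter, mem_biUnion]
  constructor
  · rintro ⟨⟨x, hx, hz⟩, hn⟩
    rw [mem_image] at hz
    obtain ⟨b, hb, rfl⟩ := hz
    rw [mem_product] at hx hb
    exact ⟨hx, hb, hn⟩
  · rintro ⟨hx, hb, hn⟩
    refine ⟨⟨z.1, mem_product.2 hx, ?_⟩, hn⟩
    rw [mem_image]
    exact ⟨z.2, mem_product.2 hb, rfl⟩

theorem Rp_le_hit (w : Key → ℕ) (n : ℕ) : Rp m k l l' w n ≤ (hit m k l' l w n).card := by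
  classical
  unfold Rp
  refine (card_le_card (t := (hit m k l' l w n).image
    (fun z => (c0 m k l w z.1.1 + z.2.1, c0 m k l' w z.1.2 + z.2.2))) ?_).trans card_image_le
  rintro ⟨a, a'⟩ hq
  rw [mem_filter, mem_product] at hq
  obtain ⟨⟨ha, ha'⟩, hn⟩ := hq
  obtain ⟨x, hx, b, hb, h1⟩ := mem_AA_Zo ha
  obtain ⟨x', hx', b', hb', h1'⟩ := mem_AA_Zo ha'
  rw [mem_image]
  refine ⟨((x, x'), (b, b')), mem_hit.2 ⟨⟨hx, hx'⟩, ⟨hb, hb'⟩, ?_⟩, ?_⟩
  · simp only at h1 h1' hn ⊢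
    rw [← h1, ← h1', hn]
  · simp only at h1 h1' ⊢
    rw [← h1, ← h1']

theorem lowJ_nbV_inj {x z : JF → ℕ} (h1 : lowJ x = lowJ z) (h2 : nbV x = nbV z) : x = z := by
  funext i
  rcases i with f | i
  · exact congrFun h1 (Sum.inl f)
  · refine Fin.cases ?_ (fun f => ?_) i
    · exact congrFun h1 (Sum.inr 0)
    · exact congrFun h2 f

/-- the windows are `0` modulo the buffer digits -/
theorem buf_dvd (hm : 0 < m) (h : SplitP m k s l' l) {w : Key → ℕ} {o o' : JF → ℕ} {b b' : ℕ}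
    (hb : b ∈ Zo m k l 0 w o) (hb' : b' ∈ Zo m k l' 0 w o') :
    1000039 ^ cT m k (Sum.inr none) l' ∣ b + b' := by
  have h1 := dvd_Zo hm (Nat.zero_le _) hb
  have h2 := dvd_Zo hm (Nat.zero_le _) hb'
  rw [LL_zero, mul_one] at h1 h2
  have h3 : 1000039 ^ cT m k (Sum.inr none) l ∣ Jn m k (sL m k l) l :=
    pow_dvd_NN (pJ k (sL m k l)) (aJ m k (sL m k l) l) (Sum.inr 0)
  have h4 : 1000039 ^ cT m k (Sum.inr none) l' ∣ Jn m k (sL m k l') l' :=
    pow_dvd_NN (pJ k (sL m k l')) (aJ m k (sL m k l') l') (Sum.inr 0)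
  have h5 : cT m k (Sum.inr none) l = cT m k (Sum.inr none) l' := h.ct_l hm (by simp)
  rw [h5] at h3
  exact dvd_add (h3.trans h1) (h4.trans h2)

/-- **representations from tuples with fixed outer keys** -/
theorem Rp_le_tup (hm : 0 < m) (h : SplitP m k s l' l) (hd : SplitDig m k l' l)
    (hk : ¬ keyed m k (mL m k l')) (w : Key → ℕ) (n R : ℕ)
    (hM : ∀ o o', (MSp m k l' l o o').Ok (Mk m k))
    (hR : ∀ o ∈ OK m k l 0, ∀ o' ∈ OK m k l' 0, (tup m k s l' l o o' (hM o o') w n).card ≤ R) :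
    Rp m k l l' w n ≤ 2 * 1000038 * R := by
  classical
  have hr : 0 < rL m k l := by
    rw [h.rL1]
    omega
  refine (Rp_le_hit w n).trans ?_
  have hb := buf_pairs hm h w n
  refine le_trans (Finset.card_le_mul_card_image_of_maps_to
    (f := fun z : ((JF → ℕ) × (JF → ℕ)) × (ℕ × ℕ) => (z.1.1 (Sum.inr 0), z.1.2 (Sum.inr 0)))
    ?_ R ?_) (le_trans (Nat.mul_le_mul_left R hb) (le_of_eq (mul_comm _ _)))
  · intro z hz
    obtain ⟨hx, hbb, hn⟩ := mem_hit.1 hz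
    rw [mem_image]
    refine ⟨z.1, ?_, rfl⟩
    rw [mem_filter, mem_product]
    refine ⟨hx, ?_⟩
    have h1 := buf_dvd hm h hbb.1 hbb.2
    have h2 : (c0 m k l w z.1.1 + c0 m k l' w z.1.2) + (z.2.1 + z.2.2) ≡
        (c0 m k l w z.1.1 + c0 m k l' w z.1.2) + 0 [MOD 1000039 ^ cT m k (Sum.inr none) l'] :=
      Nat.ModEq.add_left _ ((Nat.modEq_zero_iff_dvd).2 h1)
    have h3 : (c0 m k l w z.1.1 + c0 m k l' w z.1.2) + (z.2.1 + z.2.2) = n := by
      rw [← hn]
      ring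
    rw [h3] at h2
    exact h2.symm
  · intro β _
    rcases Finset.eq_empty_or_nonempty ((hit m k l' l w n).filter
      (fun z => (z.1.1 (Sum.inr 0), z.1.2 (Sum.inr 0)) = β)) with h0 | ⟨z0, hz0⟩
    · rw [h0]
      simp
    rw [mem_filter] at hz0
    obtain ⟨hz0, hβ⟩ := hz0
    obtain ⟨hx0, hb0, hn0⟩ := mem_hit.1 hz0
    refine le_trans ?_ (hR (okey m k l 0 z0.1.1) (mem_image_of_mem _ hx0.1)
      (okey m k l' 0 z0.1.2) (mem_image_of_mem _ hx0.2))
    refine card_le_card_of_injOn (fun z => ((z.1.1, lowJ z.1.2), (nbV z.1.2, z.2))) ?_ ?_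
    · intro z hz
      rw [mem_coe, mem_filter] at hz
      obtain ⟨hz, hβ'⟩ := hz
      obtain ⟨hx, hbb, hn⟩ := mem_hit.1 hz
      have e1 : z.1.1 (Sum.inr 0) = z0.1.1 (Sum.inr 0) :=
        congrArg Prod.fst (hβ'.trans hβ.symm)
      have e2 : z.1.2 (Sum.inr 0) = z0.1.2 (Sum.inr 0) :=
        congrArg Prod.snd (hβ'.trans hβ.symm)
      have o1 := okey_up hd hx.1 hx0.1 e1
      have o2 := okey_low (k := k) hk e2
      rw [o1, o2] at hbb
      rw [mem_coe]
      unfold tup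
      rw [mem_filter, mem_product, mem_product, mem_product, mem_product]
      refine ⟨⟨⟨mem_filter.2 ⟨hx.1, o1⟩, mem_image_of_mem _ (mem_filter.2 ⟨hx.2, o2⟩)⟩,
        mem_image_of_mem _ hx.2, Zo_cons hr hbb.1, hbb.2⟩, ?_⟩
      have h1 := Pool.Agent.Helper48.T5b.c0_eq_cdQ hm h
        (hM (okey m k l 0 z0.1.1) (okey m k l' 0 z0.1.2)) w z.1.2
      have h2 : cdQ (MSp m k l' l (okey m k l 0 z0.1.1) (okey m k l' 0 z0.1.2))
        (hM (okey m k l 0 z0.1.1) (okey m k l' 0 z0.1.2)) (QT m k (sL m k l)) (gS m k s l' w) w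
          (lowJ z.1.2) (nbV z.1.2) = c0 m k l' w z.1.2 := h1.symm
      show (MSp m k l' l (okey m k l 0 z0.1.1) (okey m k l' 0 z0.1.2)).cd
        (hM (okey m k l 0 z0.1.1) (okey m k l' 0 z0.1.2)) w z.1.1 + cdQ _ _ _ _ w
          (lowJ z.1.2) (nbV z.1.2) + (z.2.1 + z.2.2) = n
      rw [h2, ← c0_eq_cd, ← hn]
      ring
    · intro z _ z' _ hzz
      have h1 : z.1.1 = z'.1.1 := congrArg (fun q => q.1.1) hzz
      have h2 : lowJ z.1.2 = lowJ z'.1.2 := congrArg (fun q => q.1.2) hzz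
      have h3 : nbV z.1.2 = nbV z'.1.2 := congrArg (fun q => q.2.1) hzz
      have h4 : z.2 = z'.2 := congrArg (fun q => q.2.2) hzz
      exact Prod.ext (Prod.ext h1 (lowJ_nbV_inj h2 h3)) h4

/-! ## the tuples depend on the keys of the main level, the rest being fixed -/

/-- the keys of the main level of the pair -/
def isMn (l' l : ℕ) : Key → Prop
  | Key.J a i _ => a = l ∨ (a = l' ∧ ∀ f : Fin 3, i ≠ Sum.inr f.succ)
  | Key.S _ _ _ _ _ => False
  | Key.V _ _ _ => False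

theorem isMn_key {o o' : JF → ℕ} (i : JF) (x : JF → ℕ) :
    isMn l' l ((MSp m k l' l o o').key i x) := Or.inl rfl

theorem isMn_key' {o o' : JF → ℕ} (i : JF) (x : JF → ℕ) :
    isMn l' l ((MSp m k l' l o o').key' i x) := by
  rcases i with f | i
  · exact Or.inr ⟨rfl, fun g => by simp⟩
  · refine Or.inr ⟨rfl, fun g hg => ?_⟩
    have h1 : (0 : Fin 4) = g.succ := Sum.inr.inj hg
    exact Fin.succ_ne_zero g h1.symm

/-- the sum of the codes of a tuple in terms of the free keys -/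
theorem tup_glue (hm : 0 < m) (hl : bb 0 ≤ mL m k l) (hl' : bb 0 ≤ mL m k l')
    {o o' : JF → ℕ} (ho : ∀ j, o j < Bd m k l) (ho' : ∀ j, o' j < Bd m k l') (hr : 0 < rL m k l)
    (hne : l' ≠ l)
    (hM : (MSp m k l' l o o').Ok (Mk m k)) {w w0 w1 : Key → ℕ}
    (h0 : ∀ q, (q ∈ keysOf m k l ∨ q ∈ keysOf m k l') → ¬ isMn l' l q → w q = w0 q)
    (h1 : ∀ q, isMn l' l q → w q = w1 q) (n : ℕ) :
    tup m k s l' l o o' hM w n =
      (((MSp m k l' l o o').X ×ˢ (MSp m k l' l o o').X') ×ˢ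
        (Yn m k l' ×ˢ (ZU m k l w0 o ×ˢ Zo m k l' 0 w0 o'))).filter
        (fun z => (MSp m k l' l o o').cd hM w1 z.1.1 +
          cdQ (MSp m k l' l o o') hM (QT m k (sL m k l)) (gS m k s l' w0) w1 z.1.2 z.2.1 +
            (z.2.2.1 + z.2.2.2) = n) := by
  classical
  have hZ : ∀ t, Zo m k l t w 0 = Zo m k l t w0 0 := fun t => Zo_congr hm hl
    (P := fun q => ¬ isMn l' l q) (fun q hq hq1 => h0 q (Or.inl hq) hq1) (fun _ _ _ _ h => h)
    (fun _ _ h => h) (fun _ => Bd_pos m k l) t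
  have hZ' : Zo m k l' 0 w o' = Zo m k l' 0 w0 o' := Zo_congr hm hl'
    (P := fun q => ¬ isMn l' l q) (fun q hq hq1 => h0 q (Or.inr hq) hq1) (fun _ _ _ _ h => h)
    (fun _ _ h => h) ho' 0
  have hU : ZU m k l w o = ZU m k l w0 o := by
    unfold ZU
    rw [hZ 1]
    refine Finset.image_congr (fun z hz => ?_)
    have hz1 := (mem_product.1 (mem_coe.1 hz)).1
    show cs m k l 0 w o z.1 + z.2 = cs m k l 0 w0 o z.1 + z.2
    rw [cs_congr hm hl (P := fun q => ¬ isMn l' l q) (fun q hq hq1 => h0 q (Or.inl hq) hq1)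
      (fun _ _ _ _ h => h) hr ho hz1]
  have hg : gS m k s l' w = gS m k s l' w0 := by
    funext y
    unfold gS
    congr 1
    funext f
    have h2 : w (Key.J l' (Sum.inr f.succ) (fun _ => 0)) =
        w0 (Key.J l' (Sum.inr f.succ) (fun _ => 0)) := by
      refine h0 _ (Or.inr (J0_mem _)) ?_
      rintro (h3 | h3)
      · exact hne h3
      · exact h3.2 f rfl
    rw [h2]
  have hc : ∀ x, (MSp m k l' l o o').cd hM w x = (MSp m k l' l o o').cd hM w1 x := by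
    intro x
    unfold MP.cd
    congr 1
    funext i
    unfold MP.ρ
    rw [h1 _ (isMn_key i x)]
  have hc' : ∀ x y, cdQ (MSp m k l' l o o') hM (QT m k (sL m k l)) (gS m k s l' w0) w x y =
      cdQ (MSp m k l' l o o') hM (QT m k (sL m k l)) (gS m k s l' w0) w1 x y := by
    intro x y
    unfold cdQ
    congr 1
    unfold MP.cd'
    congr 1
    funext i
    unfold MP.ρ'
    rw [h1 _ (isMn_key' i x)]
  unfold tup
  rw [hZ', hU, hg]
  refine Finset.filter_congr (fun z _ => ?_)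
  rw [hc, hc']

end Pool.Agent.Helper54.T5b
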