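import Pool.Agent.Helper54.T5b.MSplit
import Pool.Agent.Helper48.T5b.EvSplit

/-!
# T5b, (S3'): the pairs across SPLIT at a distance between `.35 SS` and `8 SS`: the number

`s + 1 = sL m k l`, `s = sL m k l'`, `Q = QT m k (s + 1)`.
-/

set_option autoImplicit false

namespace Pool.Agent.Helper54.T5b

open Finset Pool.Agent.Helper27.T4 Pool.Agent.Helper84.T5b Pool.Agent.Helper37.T5b
open Pool.Agent.Helper5.ET (mask bb)
open Pool.Agent.Helper30.T5b (pz QF QT RT ez NL BP)
open Pool.Agent.Helper39.T5 Pool.Agent.Helper50.T5 Pool.Agent.Helper57.T5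
open Pool.Agent.Helper3.T5 (MP)
open Pool.Agent.Helper48.T5b (SplitP)

/-- range of the sum of the two joint codes -/
noncomputable def SA (m k l' l : ℕ) : ℕ :=
  FF m k l 0 + Jn m k (sL m k l) (ef m k l' 0) * QT m k (sL m k l)

/-- range of the code of the new static level -/
noncomputable def SG (m k l : ℕ) : ℕ := FF m k l 1 * QT m k (sL m k l)

/-- range of the windows of the lower state -/
noncomputable def SV (m k l' : ℕ) : ℕ := 17 * NL m k l'

/-- constant of the regularity of the new static level -/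
noncomputable def Srho (m k l : ℕ) : ℝ := 6800 * (SS m (sL m k l + 1) : ℝ) * (2 * (BP k : ℝ)) ^ 2

/-- bound of the number of pairs of windows in an interval of length `SA m k l' l` -/
noncomputable def FS (m k l' l : ℕ) : ℝ :=
  (Srho m k l * (1 + ((SA m k l' l : ℝ) / FF m k l 1 + 1) / Real.sqrt (QT m k (sL m k l)))) *
  (((10 ^ 6) ^ (2 * SS m (sL m k l' - 1)) *
    (1 + (((SA m k l' l : ℝ) + SG m k l + SV m k l') / (Jn m k (sL m k l) l *
      QT m k (sL m k l)) + 1) / Real.sqrt (QT m k (sL m k l')))) *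
  ((10 ^ 6) ^ (2 * SS m (sL m k l' - 1)) *
    (1 + (min ((SA m k l' l : ℝ) + SG m k l) (SV m k l') / Jn m k (sL m k l') l' + 1) /
      Real.sqrt (QT m k (sL m k l')))))

/-- the final number of (S3') -/
def SMNum (m k : ℕ) : Prop := ∃ l0 : ℕ, ∀ l' l (o o' : JF → ℕ), l0 ≤ l' →
    SplitDig m k l' l → SplitP m k (sL m k l') l' l →
    7 * SS m (sL m k l') ≤ 20 * (l - l') → l - l' ≤ 8 * SS m (sL m k l') →
    (∀ x, l' ≤ x → x ≤ ez m (sL m k l) l →
      NL m k x = RT m k (sL m k l) * Jn m k (sL m k l) x) →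
    ∀ E1 nY : ℕ, (E1 : ℝ) ≤ FS m k l' l → (nY : ℝ) ≤ Real.sqrt (QT m k (sL m k l)) →
    (E1 : ℝ) * (nY * ((MSp m k l' l o o').C * (MSp m k l' l o o').Lam *
      (min (1 / (QT m k (sL m k l) : ℝ)) (((MSp m k l' l o o').Ne' : ℝ) /
        (MSp m k l' l o o').Ne) + 1 / (MSp m k l' l o o').q))) ≤
      Real.exp (-((SS m (sL m k l') : ℝ) / 64))

end Pool.Agent.Helper54.T5b
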