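import Pool.Agent.Helper98.S3P.Reg
import Pool.Agent.Helper98.S3P.Arc
import Pool.Agent.Helper98.S3P.Num

/-!
# T5b, (S3'): the probability for fixed outer keys
-/

set_option autoImplicit false

namespace Pool.Agent.Helper54.T5

open Finset Pool.Agent.Helper27.T4 Pool.Agent.Helper22.HW Pool.Agent.Helper22.SL
  Pool.Agent.Helper3.T5

variable {ι κ γ : Type*} [Fintype ι] [DecidableEq ι] [DecidableEq κ] {M : MP ι κ} {Mk : κ → ℕ}

open Classical in
/-- **J7S, structured form**, general bound of the pairs of windows -/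
theorem split_far_win2 {δ : Type*} (hM : M.Ok Mk) (hS : M.St) (hMk : ∀ k, 0 < Mk k) {K : Finset κ}
    (hK : ∀ x ∈ M.X, ∀ i, M.key i x ∈ K) (hK' : ∀ x ∈ M.X', ∀ i, M.key' i x ∈ K)
    {Q : ℕ} (hQ : ∀ i, Q.Coprime (M.p i)) (hQ0 : 0 < Q) (Y : Finset γ) (g : γ → ℕ)
    (Y2 : Finset δ) (c2 : δ → ℕ) (B1 B' : Finset ℕ)
    (hc2 : ∀ y ∈ Y2, M.N0 ∣ c2 y) (hB1 : ∀ b ∈ B1, M.N0 * Q ∣ b) (hB' : ∀ b ∈ B', M.N0 * Q ∣ b)
    (Cd R2 E1 n1 : ℕ)
    (hdec : ∀ T, ((Y2 ×ˢ Y).filter (fun q => c2 q.1 + g q.2 ≡ T [MOD Q])).card ≤ Cd)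
    (hR2 : ∀ T, ((B1 ×ˢ B').filter (fun q => q.1 + q.2 = T)).card ≤ R2)
    (hE : ∀ n < n1, ((((Y2 ×ˢ B1).image (fun z => c2 z.1 + z.2)) ×ˢ B').filter
      (fun q => q.1 + q.2 ≤ n ∧ n < q.1 + q.2 + (M.Ne + M.Ne' * Q))).card ≤ E1)
    {ρ : ℝ} (hρ : 0 ≤ ρ)
    (h : E1 * (Y.card * (M.C * M.Lam *
      (min (1 / (Q : ℝ)) ((M.Ne' : ℝ) / M.Ne) + 1 / M.q))) ≤ ρ) (m : ℕ) :
    PrG Mk K (fun w => ∃ n < n1, 2 * (M.C * (Cd * R2)) * m <
      (((M.X ×ˢ M.X') ×ˢ (Y ×ˢ (((Y2 ×ˢ B1).image (fun z => c2 z.1 + z.2)) ×ˢ B'))).filter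
        (fun z => M.cd hM w z.1.1 + cdQ M hM Q g w z.1.2 z.2.1 + (z.2.2.1 + z.2.2.2) = n)).card)
      (n1 * ((M.q : ℝ) ^ 2 * ρ ^ (m + 1))) := by
  refine split_far hM hS hMk hK hK' hQ hQ0 Y g _ B' ?_ ?_ (Cd * R2) E1 n1 ?_ hE hρ h m
  · intro b hb
    rw [mem_image] at hb
    obtain ⟨⟨y, b1⟩, h1, rfl⟩ := hb
    rw [mem_product] at h1
    exact dvd_add (hc2 y h1.1) ((dvd_mul_right _ _).trans (hB1 b1 h1.2))
  · intro b hb
    exact (dvd_mul_right _ _).trans (hB' b hb)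
  · intro r T
    exact leaf_split Y Y2 B1 B' c2 (fun y => crt M.Ne' Q r (g y)) g
      (fun y _ => crt_right (coprime_Ne' hQ) r (g y))
      (fun b hb => (dvd_mul_left _ _).trans (hB1 b hb))
      (fun b hb => (dvd_mul_left _ _).trans (hB' b hb)) hdec hR2 T

end Pool.Agent.Helper54.T5

namespace Pool.Agent.Helper54.T5b

open Finset Pool.Agent.Helper27.T4 Pool.Agent.Helper84.T5b Pool.Agent.Helper37.T5b
open Pool.Agent.Helper5.ET (mask bb)
open Pool.Agent.Helper30.T5b (pz QF QT RT ez NL BP)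
open Pool.Agent.Helper39.T5 Pool.Agent.Helper50.T5 Pool.Agent.Helper57.T5
open Pool.Agent.Helper3.T5 (MP)
open Pool.Agent.Helper48.T5b (SplitP gS cT)
open Pool.Agent.Helper45.T5b (IsWinB OK)
open Pool.Agent.Helper45.T5 (RegSet)
open Pool.Agent.Helper54.T5 (cdQ)
open Pool.Agent.Helper22.SL
open Pool.Agent.Helper98.S3P (GoodT pairs_near)

variable {m k s l' l : ℕ}

/-- the number of a bad event for fixed outer keys -/
noncomputable def bnd4 (m k l' l mm : ℕ) : ℝ :=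
  ((34 * NL m k l : ℕ) : ℝ) * (((MSp m k l' l 0 0).q : ℝ) ^ 2 *
    (Real.exp (-((SS m (sL m k l') : ℝ) / 50))) ^ (mm + 1))

theorem E1_nonneg (m k l' l A : ℕ) : 0 ≤ Pool.Agent.Helper98.S3P.E1 m k l' l A := by
  unfold Pool.Agent.Helper98.S3P.E1 Pool.Agent.Helper98.S3P.cap Pool.Agent.Helper98.S3P.R0
  positivity

/-- **fixed outer keys, fixed static keys** -/
theorem s4_fix (hm : 0 < m) (h : SplitP m k s l' l) (hd : SplitDig m k l' l)
    (hl : bb 0 ≤ mL m k l) (hl' : bb 0 ≤ mL m k l')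
    (hdb' : ∀ t < rL m k l', 2 * (FF m k l' t * LL (QQ m k (sL m k l')) t) ≤
      FF m k l' (t + 1) * LL (QQ m k (sL m k l')) (t + 1))
    (hNL' : 2 * (FF m k l' (rL m k l') * LL (QQ m k (sL m k l')) (rL m k l')) ≤ NL m k l')
    (hV : Un m k l' * (16 * RT m k (bL m k l')) ≤ Un m k l)
    (hnum : ∀ o o' : JF → ℕ, ∀ nY : ℕ, (nY : ℝ) ≤ Real.sqrt (QT m k (sL m k l)) →
      Pool.Agent.Helper98.S3P.E1 m k l' l
        ((MSp m k l' l o o').Ne + (MSp m k l' l o o').Ne' * QT m k (sL m k l)) *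
      (nY * ((MSp m k l' l o o').C * (MSp m k l' l o o').Lam *
        (min (1 / (QT m k (sL m k l) : ℝ)) (((MSp m k l' l o o').Ne' : ℝ) /
          (MSp m k l' l o o').Ne) + 1 / (MSp m k l' l o o').q))) ≤
        Real.exp (-((SS m (sL m k l') : ℝ) / 50)))
    {K K0 : Finset Key} (hK : keysOf m k l ⊆ K) (hK' : keysOf m k l' ⊆ K)
    (hK0 : ∀ q, q ∈ K0 ↔ q ∈ K ∧ ¬ isMn l' l q) {w0 : Key → ℕ} (hg : GoodT m k l' l w0)
    {o o' : JF → ℕ} (ho : o ∈ OK m k l 0) (ho' : o' ∈ OK m k l' 0)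
    (hM : (MSp m k l' l o o').Ok (Mk m k)) (mm : ℕ) :
    PrG (Mk m k) (K \ K0) (fun w => ∃ n < 34 * NL m k l,
      2 * ((MSp m k l' l o o').C * (C3 k * C3 k ^ k)) * mm <
        (tup m k s l' l o o' hM (glue K0 w0 w) n).card) (bnd4 m k l' l mm) := by
  classical
  have hr : 0 < rL m k l := by
    rw [h.rL1]
    omega
  have hs : sL m k l = s + 1 := h.s1
  have hs' : sL m k l' = s := h.s'
  have hne : l' ≠ l := hd.ll.ne
  have ho1 : ∀ j, o j < Bd m k l := by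
    unfold OK at ho
    rw [mem_image] at ho
    obtain ⟨x, hx, rfl⟩ := ho
    exact fun j => okey_lt hm hl hx 0 j
  have ho2 : ∀ j, o' j < Bd m k l' := by
    unfold OK at ho'
    rw [mem_image] at ho'
    obtain ⟨x, hx, rfl⟩ := ho'
    exact fun j => okey_lt hm hl' hx 0 j
  have hJ1 : Jn m k (sL m k l') l' = Jn m k (s + 1) l' * QT m k (s + 1) := by
    have h1 := (h.win l' le_rfl (h.le.trans (Nat.le_add_right _ _))).Jn_split hm
    rw [hs']
    exact h1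
  have hN0 : (MSp m k l' l o o').N0 = Jn m k (sL m k l) l' := rfl
  -- the pairs of windows
  obtain ⟨A, hA⟩ : ∃ A, A = (MSp m k l' l o o').Ne + (MSp m k l' l o o').Ne' *
    QT m k (sL m k l) := ⟨_, rfl⟩
  obtain ⟨E1, hE1⟩ : ∃ E1 : ℕ, E1 = ⌊Pool.Agent.Helper98.S3P.E1 m k l' l A⌋₊ := ⟨_, rfl⟩
  have hpairs : ∀ n, ((ZU m k l w0 o ×ˢ Zo m k l' 0 w0 o').filter (fun q => q.1 + q.2 ≤ n ∧
      n < q.1 + q.2 + A)).card ≤ E1 := by
    intro n
    have h0 := pairs_near hm hl' hdb' hNL' hg ho ho' A n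
    rw [hE1]
    exact Nat.le_floor h0
  have hYn := card_Yn hm h
  rw [← hs] at hYn
  have hρ : (E1 : ℝ) * (((Yn m k l').card : ℝ) *
      ((MSp m k l' l o o').C * (MSp m k l' l o o').Lam *
        (min (1 / (QT m k (sL m k l) : ℝ)) (((MSp m k l' l o o').Ne' : ℝ) /
          (MSp m k l' l o o').Ne) + 1 / (MSp m k l' l o o').q))) ≤
      Real.exp (-((SS m (sL m k l') : ℝ) / 50)) := by
    refine le_trans ?_ (hnum o o' (Yn m k l').card hYn)
    rw [← hA, hE1]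
    refine mul_le_mul_of_nonneg_right (Nat.floor_le (E1_nonneg _ _ _ _ _)) ?_
    have h1 : (0 : ℝ) ≤ min (1 / (QT m k (sL m k l) : ℝ)) (((MSp m k l' l o o').Ne' : ℝ) /
          (MSp m k l' l o o').Ne) := le_min (one_div_nonneg.2 (Nat.cast_nonneg _))
      (div_nonneg (Nat.cast_nonneg _) (Nat.cast_nonneg _))
    exact mul_nonneg (Nat.cast_nonneg _) (mul_nonneg (mul_nonneg (Nat.cast_nonneg _)
      (Nat.cast_nonneg _)) (add_nonneg h1 (one_div_nonneg.2 (Nat.cast_nonneg _))))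
  have hkey : ∀ x ∈ (MSp m k l' l o o').X, ∀ i, (MSp m k l' l o o').key i x ∈ K \ K0 := by
    intro x hx i
    rw [mem_sdiff, hK0]
    refine ⟨hK ?_, fun h1 => h1.2 (isMn_key i x)⟩
    exact J_mem (maskJ_lt (Bd_pos m k l) (fun j => XJ_lt hm hl (mem_filter.1 hx).1 j))
  have hkey' : ∀ x ∈ (MSp m k l' l o o').X', ∀ i, (MSp m k l' l o o').key' i x ∈ K \ K0 := by
    intro x hx i
    rw [mem_sdiff, hK0]
    refine ⟨hK' ?_, fun h1 => h1.2 (isMn_key' i x)⟩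
    change x ∈ ((XJ m k l').filter (fun x => okey m k l' 0 x = o')).image lowJ at hx
    rw [mem_image] at hx
    obtain ⟨z, hz, rfl⟩ := hx
    have hz1 : ∀ j, lowJ z j < Bd m k l' := by
      have h2 : 1 < Bd m k l' := by
        unfold Bd
        omega
      intro j
      rcases j with f | j
      · exact XJ_lt hm hl' (mem_filter.1 hz).1 (Sum.inl f)
      · refine Fin.cases ?_ (fun f => ?_) j
        · exact XJ_lt hm hl' (mem_filter.1 hz).1 (Sum.inr 0)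
        · exact h2
    rcases i with f | i
    · exact J_mem (maskJ_lt (Bd_pos m k l') hz1)
    · exact J_mem (fun _ => Bd_pos m k l')
  have hfar := Pool.Agent.Helper54.T5.split_far_win2 (K := K \ K0) hM (MSp_st hd)
    (Pool.Agent.Helper84.T5b.Mk_pos m k) hkey hkey' (cop_QT_pJ m k (sL m k l))
    (Pool.Agent.Helper30.T5b.QT_pos m k (sL m k l)) (Yn m k l') (gS m k s l' w0)
    (Ys m k l 0) (cs m k l 0 w0 o) (Zo m k l 1 w0 0) (Zo m k l' 0 w0 o')
    (fun y _ => by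
      rw [hN0]
      have h1 := Pool.Agent.Helper48.T5b.cs_dvd m k l 0 w0 o y
      rw [LL_zero, mul_one] at h1
      refine dvd_trans ?_ h1
      exact Pool.Agent.Helper48.T5b.Jn_dvd m k _
        (hd.ll.le.trans (Pool.Agent.Helper48.T5b.lt_ef hm l 1).le))
    (fun b hb => by
      rw [hN0]
      have h1 := dvd_Zo hm (show 1 ≤ rL m k l by omega) hb
      have h2 : LL (QQ m k (sL m k l)) 1 = QT m k (sL m k l) := by
        rw [LL_succ, LL_zero, one_mul]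
        rfl
      rw [h2] at h1
      exact (Nat.mul_dvd_mul_right (Pool.Agent.Helper48.T5b.Jn_dvd m k _ hd.ll.le) _).trans h1)
    (fun b hb => by
      rw [hN0]
      have h1 := dvd_Zo hm (Nat.zero_le _) hb
      rw [LL_zero, mul_one, hJ1] at h1
      rw [hs]
      exact h1)
    (C3 k) (C3 k ^ k) E1 (34 * NL m k l)
    (fun T => by
      have h1 := dec_new hm h w0 o T
      rw [hs]
      exact h1)
    (fun T => leaf_Zo hm h w0 o' hV T)
    (fun n _ => by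
      rw [← hA]
      exact hpairs n)
    (ρ := Real.exp (-((SS m (sL m k l') : ℝ) / 50))) (by positivity) hρ mm
  refine PrG_mono ?_ (le_of_eq ?_) hfar
  · intro r _ hB
    obtain ⟨n, hn, hc⟩ := hB
    refine ⟨n, hn, lt_of_lt_of_le hc (le_of_eq ?_)⟩
    rw [tup_glue hm hl hl' ho1 ho2 hr hne hM (w := glue K0 w0 (ext (K \ K0) r)) (w0 := w0)
      (w1 := ext (K \ K0) r) ?_ ?_ n]
    · rfl
    · intro q hq hq1
      refine glue_mem _ _ _ ((hK0 q).2 ⟨?_, hq1⟩)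
      rcases hq with hq | hq
      · exact hK hq
      · exact hK' hq
    · intro q hq
      exact glue_not_mem _ _ _ (fun h1 => ((hK0 q).1 h1).2 hq)
  · unfold bnd4
    rfl

/-- **the union over the outer keys** -/
theorem s4_all (hm : 0 < m) (h : SplitP m k s l' l) (hd : SplitDig m k l' l)
    (hk : ¬ keyed m k (mL m k l'))
    (hl : bb 0 ≤ mL m k l) (hl' : bb 0 ≤ mL m k l')
    (hdb' : ∀ t < rL m k l', 2 * (FF m k l' t * LL (QQ m k (sL m k l')) t) ≤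
      FF m k l' (t + 1) * LL (QQ m k (sL m k l')) (t + 1))
    (hNL' : 2 * (FF m k l' (rL m k l') * LL (QQ m k (sL m k l')) (rL m k l')) ≤ NL m k l')
    (hV : Un m k l' * (16 * RT m k (bL m k l')) ≤ Un m k l)
    (hnum : ∀ o o' : JF → ℕ, ∀ nY : ℕ, (nY : ℝ) ≤ Real.sqrt (QT m k (sL m k l)) →
      Pool.Agent.Helper98.S3P.E1 m k l' l
        ((MSp m k l' l o o').Ne + (MSp m k l' l o o').Ne' * QT m k (sL m k l)) *
      (nY * ((MSp m k l' l o o').C * (MSp m k l' l o o').Lam *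
        (min (1 / (QT m k (sL m k l) : ℝ)) (((MSp m k l' l o o').Ne' : ℝ) /
          (MSp m k l' l o o').Ne) + 1 / (MSp m k l' l o o').q))) ≤
        Real.exp (-((SS m (sL m k l') : ℝ) / 50)))
    (hrg : ∀ (w : Key → ℕ) (n : ℕ), 0 < Rp m k l l' w n → n < 34 * NL m k l)
    {K : Finset Key} (hK : keysOf m k l ⊆ K) (hK' : keysOf m k l' ⊆ K) {δ : ℝ}
    (hreg : PrG (Mk m k) K (fun w => ¬ GoodT m k l' l w) δ) (mm : ℕ) :
    PrG (Mk m k) K (fun w => ∃ n, 2 * 1000038 *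
      (2 * ((MSp m k l' l 0 0).C * (C3 k * C3 k ^ k)) * mm) < Rp m k l l' w n)
      (δ + ((OK m k l 0).card * (OK m k l' 0).card : ℕ) * bnd4 m k l' l mm) := by
  classical
  have hr : 0 < rL m k l := by
    rw [h.rL1]
    omega
  obtain ⟨K0, hK0e⟩ : ∃ K0 : Finset Key, K0 = K.filter (fun q => ¬ isMn l' l q) := ⟨_, rfl⟩
  have hK0 : ∀ q, q ∈ K0 ↔ q ∈ K ∧ ¬ isMn l' l q := by
    intro q
    rw [hK0e, mem_filter]
  have hsub : K0 ⊆ K := fun q hq => ((hK0 q).1 hq).1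
  have hb0 : 0 ≤ bnd4 m k l' l mm := by
    unfold bnd4
    positivity
  have hdep : DepOn K0 (fun w => ¬ GoodT m k l' l w) := by
    intro w w' hw
    have hag : ∀ q, q ∈ keysOf m k l ∨ q ∈ keysOf m k l' → ¬ isMn l' l q → w q = w' q :=
      fun q hq hq1 => hw q ((hK0 q).2 ⟨hq.elim (fun h1 => hK h1) (fun h1 => hK' h1), hq1⟩)
    show (¬ GoodT m k l' l w) ↔ ¬ GoodT m k l' l w'
    rw [not_iff_not]
    exact ⟨Pool.Agent.Helper98.S3P.goodT_congr hm hl hl' hr (P := fun q => ¬ isMn l' l q) hag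
      (fun _ _ _ _ _ h => h) (fun _ _ _ h => h),
      Pool.Agent.Helper98.S3P.goodT_congr hm hl hl' hr (P := fun q => ¬ isMn l' l q)
        (fun q hq hq1 => (hag q hq hq1).symm) (fun _ _ _ _ _ h => h) (fun _ _ _ h => h)⟩
  have hreg0 : PrG (Mk m k) K0 (fun w => ¬ GoodT m k l' l w) δ :=
    (PrG_dep_iff (Pool.Agent.Helper84.T5b.Mk_pos m k) hsub hdep).1 hreg
  refine PrG_cond_bad hsub (mul_nonneg (Nat.cast_nonneg _) hb0) hreg0 (fun r0 _ hgood => ?_)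
  rw [not_not] at hgood
  have hM : ∀ o o' : JF → ℕ, (MSp m k l' l o o').Ok (Mk m k) := fun o o' => MSp_ok hd
  have hun := PrG_exists (Mk := Mk m k) (K := K \ K0) (OK m k l 0 ×ˢ OK m k l' 0)
    (B := fun q w => ∃ n < 34 * NL m k l,
      2 * ((MSp m k l' l q.1 q.2).C * (C3 k * C3 k ^ k)) * mm <
        (tup m k s l' l q.1 q.2 (hM q.1 q.2) (glue K0 (ext K0 r0) w) n).card)
    (ε := fun _ => bnd4 m k l' l mm) (fun q hq => by
      rw [mem_product] at hq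
      exact s4_fix hm h hd hl hl' hdb' hNL' hV hnum hK hK' hK0 hgood hq.1 hq.2 (hM q.1 q.2) mm)
  refine PrG_mono ?_ (le_of_eq ?_) hun
  · intro r _ hB
    obtain ⟨n, hn⟩ := hB
    have hn1 : n < 34 * NL m k l := hrg _ n (lt_of_le_of_lt (Nat.zero_le _) hn)
    by_contra hcon
    push Not at hcon
    have h1 := Rp_le_tup hm h hd hk (glue K0 (ext K0 r0) (ext (K \ K0) r)) n
      (2 * ((MSp m k l' l 0 0).C * (C3 k * C3 k ^ k)) * mm) hM (fun o ho o' ho' =>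
        hcon (o, o') (mem_product.2 ⟨ho, ho'⟩) n hn1)
    exact absurd hn (not_lt.2 h1)
  · rw [sum_const, card_product, nsmul_eq_mul]

end Pool.Agent.Helper54.T5b
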